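import Mathlib

/-!
# Ideals whose `p`-th power is principal, and the class group
-/

set_option autoImplicit false
set_option linter.unusedSectionVars false

namespace Pool.Agent.Y802.EV

open NumberField IsDedekindDomain

section

variable {K : Type} [Field K] [NumberField K] {p : ℕ}

/-- The nonzero ideals `I` and `J` have the same class in the ideal class group. -/
def SameClass (I J : Ideal (𝓞 K)) : Prop :=
  ∃ x y : 𝓞 K, x ≠ 0 ∧ y ≠ 0 ∧ Ideal.span {x} * I = Ideal.span {y} * J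

/-- The integer valued valuation. -/
noncomputable def Vl (v : HeightOneSpectrum (𝓞 K)) (x : K) : ℤ := (v.valuation K x).log

theorem Vl_mul (v : HeightOneSpectrum (𝓞 K)) {x y : K} (hx : x ≠ 0) (hy : y ≠ 0) :
    Vl v (x * y) = Vl v x + Vl v y := by
  unfold Vl
  rw [map_mul, WithZero.log_mul]
  · exact (map_ne_zero _).2 hx
  · exact (map_ne_zero _).2 hy

theorem Vl_one (v : HeightOneSpectrum (𝓞 K)) : Vl v (1 : K) = 0 := by
  have h := Vl_mul v (one_ne_zero : (1 : K) ≠ 0) one_ne_zero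
  rw [mul_one] at h
  linarith

theorem Vl_pow (v : HeightOneSpectrum (𝓞 K)) {x : K} (hx : x ≠ 0) (n : ℕ) :
    Vl v (x ^ n) = n * Vl v x := by
  induction n with
  | zero => simp [Vl_one]
  | succ n ih => rw [pow_succ, Vl_mul v (pow_ne_zero _ hx) hx, ih]; push_cast; ring

theorem Vl_int (v : HeightOneSpectrum (𝓞 K)) {b : 𝓞 K} (hb : b ≠ 0) : Vl v (b : K) =
    -((Associates.mk v.asIdeal).count (Associates.mk (Ideal.span {b})).factors : ℤ) := by
  unfold Vl
  rw [HeightOneSpectrum.valuation_of_algebraMap, HeightOneSpectrum.intValuation_def, if_neg hb,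
    WithZero.log_exp]

/-- `I ^ p` is generated by `a` up to the `p`-th power of an element of `K`. -/
def Rt (p : ℕ) (a : K) (I : Ideal (𝓞 K)) : Prop :=
  I ≠ ⊥ ∧ ∃ (b : 𝓞 K) (α : K), b ≠ 0 ∧ α ≠ 0 ∧ (b : K) = a * α ^ p ∧ Ideal.span {b} = I ^ p

theorem exists_pow (hp0 : p ≠ 0) {J : Ideal (𝓞 K)} (hJ : J ≠ ⊥)
    (h : ∀ v : HeightOneSpectrum (𝓞 K),
      p ∣ (Associates.mk v.asIdeal).count (Associates.mk J).factors) :
    ∃ I : Ideal (𝓞 K), I ^ p = J := by
  classical
  choose c hc using h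
  have hfin : Function.HasFiniteMulSupport fun v : HeightOneSpectrum (𝓞 K) => v.asIdeal ^ c v := by
    refine (Ideal.hasFiniteMulSupport hJ).subset ?_
    intro v hv
    rw [Function.mem_mulSupport] at hv ⊢
    intro h1
    apply hv
    have h2 : v.asIdeal ^ ((Associates.mk v.asIdeal).count (Associates.mk J).factors) = 1 := h1
    rw [hc v] at h2
    rcases Nat.eq_zero_or_pos (c v) with h3 | h3
    · rw [h3, pow_zero]
    · exfalso
      have h4 : v.asIdeal = 1 := by
        have h5 : IsUnit (v.asIdeal ^ (p * c v)) := by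
          rw [h2]
          exact isUnit_one
        have h6 := (isUnit_pow_iff (by positivity)).1 h5
        rwa [Ideal.isUnit_iff, ← Ideal.one_eq_top] at h6
      exact v.isPrime.ne_top (by rw [h4, Ideal.one_eq_top])
  refine ⟨∏ᶠ v : HeightOneSpectrum (𝓞 K), v.asIdeal ^ c v, ?_⟩
  rw [finprod_pow hfin]
  conv_rhs => rw [← Ideal.finprod_heightOneSpectrum_factorization hJ]
  refine finprod_congr fun v => ?_
  rw [← pow_mul, mul_comm, ← hc v]
  rfl

theorem rt_exists (hp0 : p ≠ 0) {a : K} (ha : a ≠ 0)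
    (h : ∀ v : HeightOneSpectrum (𝓞 K), (p : ℤ) ∣ Vl v a) : ∃ I, Rt p a I := by
  obtain ⟨x, y, hy, hxy⟩ := IsFractionRing.div_surjective (A := 𝓞 K) a
  have hy0 : y ≠ 0 := nonZeroDivisors.ne_zero hy
  have hyK : (y : K) ≠ 0 := by simpa using hy0
  have hx : (x : K) = a * y := by
    rw [← hxy]
    change (x : K) = (x : K) / (y : K) * y
    field_simp
  have hx0 : x ≠ 0 := by
    rintro rfl
    have : a * (y : K) = 0 := by rw [← hx]; simp
    exact (mul_ne_zero ha hyK) this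
  set b : 𝓞 K := x * y ^ (p - 1) with hb
  have hb0 : b ≠ 0 := mul_ne_zero hx0 (pow_ne_zero _ hy0)
  have hbK : (b : K) = a * (y : K) ^ p := by
    have : (b : K) = (x : K) * (y : K) ^ (p - 1) := by rw [hb]; push_cast; rfl
    rw [this, hx, mul_assoc, ← pow_succ', Nat.sub_add_cancel (Nat.one_le_iff_ne_zero.2 hp0)]
  have hJ : Ideal.span {b} ≠ ⊥ := by
    rw [Ne, Ideal.span_singleton_eq_bot]
    exact hb0
  obtain ⟨I, hI⟩ := exists_pow hp0 hJ fun v => by
    have h1 := Vl_int v hb0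
    rw [hbK, Vl_mul v ha (pow_ne_zero _ hyK), Vl_pow v hyK] at h1
    have h2 : (p : ℤ) ∣ -((Associates.mk v.asIdeal).count
        (Associates.mk (Ideal.span {b})).factors : ℤ) := by
      rw [← h1]
      exact dvd_add (h v) (dvd_mul_right _ _)
    exact_mod_cast (dvd_neg.1 h2)
  refine ⟨I, ?_, b, y, hb0, hyK, hbK, hI.symm⟩
  rintro rfl
  apply hJ
  rw [← hI, ← Ideal.zero_eq_bot, zero_pow hp0]

theorem rt_unique (hp0 : p ≠ 0) {a a' k : K} (hk : k ≠ 0) (h : a' = a * k ^ p)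
    {I I' : Ideal (𝓞 K)} (h1 : Rt p a I) (h2 : Rt p a' I') : SameClass I I' := by
  obtain ⟨hI, b, α, hb, hα, e1, e2⟩ := h1
  obtain ⟨hI', b', α', hb', hα', e3, e4⟩ := h2
  obtain ⟨r, s, hs, hrs⟩ := IsFractionRing.div_surjective (A := 𝓞 K) (k * α' / α)
  have hs0 : s ≠ 0 := nonZeroDivisors.ne_zero hs
  have hsK : (s : K) ≠ 0 := by simpa using hs0
  have hr : (r : K) * α = k * α' * s := by
    have h3 : (r : K) / (s : K) = k * α' / α := hrs
    field_simp at h3
    linear_combination h3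
  have hr0 : r ≠ 0 := by
    rintro rfl
    have : k * α' * (s : K) = 0 := by rw [← hr]; simp
    exact (mul_ne_zero (mul_ne_zero hk hα') hsK) this
  have key : b' * s ^ p = b * r ^ p := by
    apply RingOfIntegers.ext
    change (b' : K) * (s : K) ^ p = (b : K) * (r : K) ^ p
    rw [e1, e3, h]
    have : (r : K) ^ p * α ^ p = k ^ p * α' ^ p * s ^ p := by
      rw [← mul_pow, hr, mul_pow, mul_pow]
    calc a * k ^ p * α' ^ p * (s : K) ^ p = a * (k ^ p * α' ^ p * s ^ p) := by ring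
      _ = a * ((r : K) ^ p * α ^ p) := by rw [this]
      _ = a * α ^ p * (r : K) ^ p := by ring
  refine ⟨r, s, hr0, hs0, ?_⟩
  apply pow_left_injective hp0
  change (Ideal.span {r} * I) ^ p = (Ideal.span {s} * I') ^ p
  rw [mul_pow, mul_pow, ← e2, ← e4, Ideal.span_singleton_pow, Ideal.span_singleton_pow,
    Ideal.span_singleton_mul_span_singleton, Ideal.span_singleton_mul_span_singleton,
    mul_comm (r ^ p), mul_comm (s ^ p), key]

theorem rt_mul {a a' : K} {I I' : Ideal (𝓞 K)} (h1 : Rt p a I) (h2 : Rt p a' I') :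
    Rt p (a * a') (I * I') := by
  obtain ⟨hI, b, α, hb, hα, e1, e2⟩ := h1
  obtain ⟨hI', b', α', hb', hα', e3, e4⟩ := h2
  refine ⟨mul_ne_zero hI hI', b * b', α * α', mul_ne_zero hb hb', mul_ne_zero hα hα', ?_, ?_⟩
  · change (b : K) * (b' : K) = _
    rw [e1, e3, mul_pow]
    ring
  · rw [← Ideal.span_singleton_mul_span_singleton, e2, e4, mul_pow]

theorem rt_map (e : K ≃+* K) {a : K} {I : Ideal (𝓞 K)} (h : Rt p a I) :
    Rt p (e a) (I.map (RingOfIntegers.mapRingEquiv e : 𝓞 K →+* 𝓞 K)) := by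
  obtain ⟨hI, b, α, hb, hα, e1, e2⟩ := h
  refine ⟨?_, RingOfIntegers.mapRingEquiv e b, e α, ?_, ?_, ?_, ?_⟩
  · rw [Ne, Ideal.map_eq_bot_iff_of_injective
      (f := (RingOfIntegers.mapRingEquiv e : 𝓞 K →+* 𝓞 K))
      (RingOfIntegers.mapRingEquiv e).injective]
    exact hI
  · simpa using hb
  · simpa using hα
  · change e (b : K) = _
    rw [e1, map_mul, map_pow]
  · rw [← Ideal.map_pow, ← e2, Ideal.map_span, Set.image_singleton]
    rfl

theorem rt_principal {a : K} {I : Ideal (𝓞 K)} (h : Rt p a I) (hI : I.IsPrincipal) :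
    ∃ (ε : (𝓞 K)ˣ) (w : K), w ≠ 0 ∧ a = ((ε : 𝓞 K) : K) * w ^ p := by
  obtain ⟨hI0, b, α, hb, hα, e1, e2⟩ := h
  obtain ⟨β, hβ⟩ := hI.principal
  have hβ' : I = Ideal.span {β} := hβ
  have hβ0 : β ≠ 0 := by
    rintro rfl
    apply hI0
    rw [hβ']
    simp
  rw [hβ', Ideal.span_singleton_pow, Ideal.span_singleton_eq_span_singleton] at e2
  obtain ⟨ε, hε⟩ := e2
  have hβK : (β : K) ≠ 0 := by simpa using hβ0
  refine ⟨ε⁻¹, β / α, div_ne_zero hβK hα, ?_⟩
  have h1 : (b : K) * ((ε : 𝓞 K) : K) = (β : K) ^ p := by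
    have := congrArg (fun z : 𝓞 K => (z : K)) hε
    push_cast at this
    exact this
  have h2 : ((ε : 𝓞 K) : K) * (((ε⁻¹ : (𝓞 K)ˣ) : 𝓞 K) : K) = 1 := by
    have := congrArg (fun z : 𝓞 K => (z : K)) (Units.mul_inv ε)
    push_cast at this
    exact this
  rw [div_pow, ← h1, e1]
  field_simp
  linear_combination (-a) * h2

end

end Pool.Agent.Y802.EV
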