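import Mathlib
import Pool.Agent.W975.UG.Kuma

/-!
# Kummer generators of the characters of the absolute Galois group
-/

set_option autoImplicit false
set_option linter.unusedSectionVars false

namespace Pool.Agent.Y802.EV

open IntermediateField

section

variable {F : Type} [Field F] [CharZero F] {K : IntermediateField F (AlgebraicClosure F)}
  {p : ℕ} [hp : Fact p.Prime] {ζ : AlgebraicClosure F}

/-- `u` is a Kummer generator of the character `g`. -/
def Kum (K : IntermediateField F (AlgebraicClosure F)) {p : ℕ} (ζ : AlgebraicClosure F)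
    (g : K.fixingSubgroup →* Multiplicative (ZMod p)) (u : AlgebraicClosure F) : Prop :=
  u ≠ 0 ∧ ∀ h : K.fixingSubgroup, (h : Gal(AlgebraicClosure F/F)) u =
    ζ ^ (Multiplicative.toAdd (g h)).val * u

theorem zpow_val (hζ : ζ ^ p = 1) (n : ℕ) : ζ ^ (n : ZMod p).val = ζ ^ n := by
  rw [ZMod.val_natCast, ← pow_mod_orderOf ζ (n % p), ← pow_mod_orderOf ζ n,
    Nat.mod_mod_of_dvd _ (orderOf_dvd_of_pow_eq_one hζ)]

theorem val_add (hζ : ζ ^ p = 1) (a b : ZMod p) : ζ ^ (a + b).val = ζ ^ a.val * ζ ^ b.val := by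
  rw [← pow_add, ← zpow_val hζ (a.val + b.val), Nat.cast_add, ZMod.natCast_zmod_val,
    ZMod.natCast_zmod_val]

theorem val_mul (hζ : ζ ^ p = 1) (c : ℕ) (a : ZMod p) :
    ζ ^ ((c : ZMod p) * a).val = (ζ ^ c) ^ a.val := by
  rw [← pow_mul, ← zpow_val hζ (c * a.val), Nat.cast_mul, ZMod.natCast_zmod_val]

theorem Kum.exists (hζ : IsPrimitiveRoot ζ p) (hK : ∀ z : AlgebraicClosure F, z ^ p = 1 → z ∈ K)
    (g : K.fixingSubgroup →* Multiplicative (ZMod p)) (hg : IsOpen (g.ker : Set K.fixingSubgroup)) :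
    ∃ u, Kum K ζ g u := by
  obtain ⟨ζ', u, hζ', hu, -, h⟩ := Pool.Agent.W975.UG.main F p hp.out K hK g hg
  have : NeZero p := ⟨hp.out.ne_zero⟩
  obtain ⟨i, -, rfl⟩ := hζ'.eq_pow_of_pow_eq_one hζ.pow_eq_one
  refine ⟨u ^ i, pow_ne_zero _ hu, fun x => ?_⟩
  rw [map_pow, h, mul_pow, ← pow_mul, ← pow_mul, Nat.mul_comm i]

theorem Kum.mul (hζ : ζ ^ p = 1) {g g' : K.fixingSubgroup →* Multiplicative (ZMod p)}
    {u u' : AlgebraicClosure F} (h : Kum K ζ g u) (h' : Kum K ζ g' u') :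
    Kum K ζ (g * g') (u * u') := by
  refine ⟨mul_ne_zero h.1 h'.1, fun x => ?_⟩
  rw [map_mul, h.2, h'.2, MonoidHom.mul_apply, toAdd_mul, val_add hζ]
  ring

theorem Kum.one (K : IntermediateField F (AlgebraicClosure F)) (ζ : AlgebraicClosure F) :
    Kum K ζ (1 : K.fixingSubgroup →* Multiplicative (ZMod p)) 1 := by
  refine ⟨one_ne_zero, fun x => ?_⟩
  rw [map_one, MonoidHom.one_apply, toAdd_one, ZMod.val_zero, pow_zero, one_mul]

theorem Kum.pow (hζ : ζ ^ p = 1) {g : K.fixingSubgroup →* Multiplicative (ZMod p)}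
    {u : AlgebraicClosure F} (h : Kum K ζ g u) (n : ℕ) : Kum K ζ (g ^ n) (u ^ n) := by
  induction n with
  | zero => rw [pow_zero, pow_zero]; exact Kum.one K ζ
  | succ n ih => rw [pow_succ, pow_succ]; exact ih.mul hζ h

/-- The conjugate character `h ↦ g (σ⁻¹ h σ)`. -/
noncomputable def cj [IsGalois F K] (σ : Gal(AlgebraicClosure F/F))
    (g : K.fixingSubgroup →* Multiplicative (ZMod p)) :
    K.fixingSubgroup →* Multiplicative (ZMod p) :=
  g.comp (MulAut.conjNormal σ⁻¹ : K.fixingSubgroup ≃* K.fixingSubgroup).toMonoidHom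

theorem Kum.conj [IsGalois F K] (hζ : ζ ^ p = 1)
    {g : K.fixingSubgroup →* Multiplicative (ZMod p)}
    {u : AlgebraicClosure F} (h : Kum K ζ g u) (σ : Gal(AlgebraicClosure F/F)) {c : ℕ}
    (hc : σ ζ = ζ ^ c) : Kum K ζ (cj σ g ^ c) (σ u) := by
  refine ⟨by simpa using h.1, fun x => ?_⟩
  have h1 := h.2 (MulAut.conjNormal σ⁻¹ x)
  have h2 : (x : Gal(AlgebraicClosure F/F)) (σ u) =
      σ (((MulAut.conjNormal σ⁻¹ x : K.fixingSubgroup) : Gal(AlgebraicClosure F/F)) u) := by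
    rw [MulAut.conjNormal_apply]
    change (x : Gal(AlgebraicClosure F/F)) (σ u) =
      (σ * (σ⁻¹ * (x : Gal(AlgebraicClosure F/F)) * σ⁻¹⁻¹)) u
    rw [inv_inv, mul_assoc, mul_inv_cancel_left]
    rfl
  rw [h2, h1, map_mul, map_pow, hc]
  congr 1
  rw [MonoidHom.pow_apply, toAdd_pow, nsmul_eq_mul, val_mul hζ]
  rfl

theorem mem_of_fixed [IsGalois F K] {x : AlgebraicClosure F}
    (h : ∀ g : K.fixingSubgroup, (g : Gal(AlgebraicClosure F/F)) x = x) : x ∈ K := by
  rw [← InfiniteGalois.fixedField_fixingSubgroup K]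
  intro g
  exact h g

theorem fixed_of_mem {x : AlgebraicClosure F} (hx : x ∈ K) (g : K.fixingSubgroup) :
    (g : Gal(AlgebraicClosure F/F)) x = x :=
  (IntermediateField.mem_fixingSubgroup_iff _ _).1 g.2 x hx

theorem Kum.pow_mem [IsGalois F K] (hζ : ζ ^ p = 1)
    {g : K.fixingSubgroup →* Multiplicative (ZMod p)} {u : AlgebraicClosure F} (h : Kum K ζ g u) :
    u ^ p ∈ K := by
  refine mem_of_fixed fun x => ?_
  rw [map_pow, h.2, mul_pow, ← pow_mul, mul_comm _ p, pow_mul, hζ, one_pow, one_mul]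

theorem Kum.div_mem [IsGalois F K] {g : K.fixingSubgroup →* Multiplicative (ZMod p)}
    (hζ0 : ζ ≠ 0) {u u' : AlgebraicClosure F} (h : Kum K ζ g u) (h' : Kum K ζ g u') :
    u / u' ∈ K := by
  refine mem_of_fixed fun x => ?_
  rw [map_div₀, h.2, h'.2]
  exact mul_div_mul_left _ _ (pow_ne_zero _ hζ0)

theorem Kum.eq_one (hζ : IsPrimitiveRoot ζ p) {g : K.fixingSubgroup →* Multiplicative (ZMod p)}
    {u : AlgebraicClosure F} (h : Kum K ζ g u) (hu : u ∈ K) : g = 1 := by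
  ext x
  have h1 := h.2 x
  rw [fixed_of_mem hu x] at h1
  have h2 : ζ ^ (Multiplicative.toAdd (g x)).val = 1 := by
    have h3 : (ζ ^ (Multiplicative.toAdd (g x)).val - 1) * u = 0 := by
      rw [sub_mul, one_mul, ← h1, sub_self]
    exact sub_eq_zero.1 ((mul_eq_zero.1 h3).resolve_right h.1)
  have h3 : p ∣ (Multiplicative.toAdd (g x)).val := hζ.dvd_of_pow_eq_one _ h2
  have h4 : (Multiplicative.toAdd (g x)).val = 0 :=
    Nat.eq_zero_of_dvd_of_lt h3 (ZMod.val_lt _)
  exact (ZMod.val_eq_zero _).1 h4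

/-- Two characters whose generators differ by an element of `K`. -/
theorem Kum.eq_of_div_mem (hζ : IsPrimitiveRoot ζ p)
    {g g' : K.fixingSubgroup →* Multiplicative (ZMod p)}
    {u u' : AlgebraicClosure F} (h : Kum K ζ g u) (h' : Kum K ζ g' u') (hu : u / u' ∈ K) :
    g = g' := by
  have h1 : Kum K ζ (g * g' ^ (p - 1)) (u * u' ^ (p - 1)) := h.mul hζ.pow_eq_one
    (h'.pow hζ.pow_eq_one _)
  have h0 : ∀ x : Multiplicative (ZMod p), x ^ p = 1 := fun x => by
    have : (p : ℕ) • Multiplicative.toAdd x = 0 := by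
      rw [nsmul_eq_mul, CharP.cast_eq_zero, zero_mul]
    exact this
  have h2 : g' * g' ^ (p - 1) = 1 := by
    rw [← pow_succ', Nat.sub_add_cancel hp.out.one_le]
    ext x
    rw [MonoidHom.pow_apply, h0]
    rfl
  -- the generator of the quotient
  have h3 : Kum K ζ (g * g' ^ (p - 1)) (u / u') := by
    refine ⟨div_ne_zero h.1 h'.1, fun x => ?_⟩
    have h5 : ((x : Gal(AlgebraicClosure F/F)) (u / u')) * ζ ^ (Multiplicative.toAdd (g' x)).val =
        ζ ^ (Multiplicative.toAdd (g x)).val * (u / u') := by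
      rw [map_div₀, h.2, h'.2, mul_div_mul_comm]
      have := pow_ne_zero (Multiplicative.toAdd (g' x)).val (hζ.ne_zero hp.out.ne_zero)
      field_simp
    have h6 : ζ ^ (Multiplicative.toAdd ((g * g' ^ (p - 1)) x)).val *
        ζ ^ (Multiplicative.toAdd (g' x)).val = ζ ^ (Multiplicative.toAdd (g x)).val := by
      rw [← val_add hζ.pow_eq_one, ← toAdd_mul, ← MonoidHom.mul_apply, mul_assoc,
        mul_comm (g' ^ (p - 1)) g', h2, mul_one]
    have h7 := pow_ne_zero (Multiplicative.toAdd (g' x)).val (hζ.ne_zero hp.out.ne_zero)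
    apply mul_right_cancel₀ h7
    rw [h5, ← h6]
    ring
  have h4 := h3.eq_one hζ hu
  calc g = g * (g' * g' ^ (p - 1)) := by rw [h2, mul_one]
    _ = (g * g' ^ (p - 1)) * g' := by rw [mul_comm g' (g' ^ (p - 1)), mul_assoc]
    _ = g' := by rw [h4, one_mul]

end

end Pool.Agent.Y802.EV
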