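import Mathlib
import Pool.Agent.Y802.EV.Kum
import Pool.Agent.Y802.EV.Ide
import Pool.Agent.W569.UF.Disc

/-!
# Valuations of Kummer generators
-/

set_option autoImplicit false
set_option linter.unusedSectionVars false

namespace Pool.Agent.Y802.EV

open NumberField IsDedekindDomain IntermediateField
open scoped Pointwise

theorem inert_at {F Ω : Type} [Field F] [NumberField F] [Field Ω] [Algebra F Ω] [IsGalois F Ω]
    (E : Type) [Group E] (f : Gal(Ω/F) →* E) (M : IntermediateField F Ω) [NumberField M]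
    [IsGalois F M] (hfix : M.fixingSubgroup = f.ker) (Q : Ideal (𝓞 Ω)) (hQm : Q.IsMaximal)
    (hI : ∀ τ : Gal(Ω/F), (∀ x : 𝓞 Ω, τ • x - x ∈ Q) → f τ = 1) :
      ∀ γ : M ≃ₐ[F] M, γ ∈ (Q.under (𝓞 M)).inertia (M ≃ₐ[F] M) → γ = 1 := by
  classical
  have hclosed : IsClosed (M.fixingSubgroup : Set Gal(Ω/F)) :=
    InfiniteGalois.fixingSubgroup_isClosed M
  have hcomm : SMulCommClass M.fixingSubgroup (𝓞 M) (𝓞 Ω) := Pool.Agent.W569.UF.Disc.smulComm M
  have hinv : Algebra.IsInvariant (𝓞 M) (𝓞 Ω) M.fixingSubgroup := Pool.Agent.W569.UF.Disc.isInv M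
  have hcpt : CompactSpace M.fixingSubgroup := isCompact_iff_compactSpace.1 hclosed.isCompact
  let _ : TopologicalSpace (𝓞 Ω) := ⊥
  have : DiscreteTopology (𝓞 Ω) := ⟨rfl⟩
  have hcont : ContinuousSMul Gal(Ω/F) (𝓞 Ω) := by
    rw [continuousSMul_iff_stabilizer_isOpen]
    intro x
    have h1 := stabilizer_isOpen_of_isIntegral (K := F) (x : Ω)
    convert h1 using 2
    ext g
    rw [MulAction.mem_stabilizer_iff, MulAction.mem_stabilizer_iff]
    constructor
    · intro h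
      exact congrArg (fun z : 𝓞 Ω => (z : Ω)) h
    · intro h
      exact RingOfIntegers.ext h
  have hcontU : ContinuousSMul M.fixingSubgroup (𝓞 Ω) := inferInstance
  have hPm : (Q.under (𝓞 M)).IsMaximal := Ideal.IsMaximal.under (𝓞 M) Q
  generalize hPdef : Q.under (𝓞 M) = P at hPm ⊢
  have hQP : Q.LiesOver P := ⟨hPdef.symm⟩
  intro γ hγ
  obtain ⟨g0, hg0⟩ := AlgEquiv.restrictNormalHom_surjective (F := F) (K₁ := M) Ω γ
  have hres : ∀ a : 𝓞 M, g0 • (algebraMap (𝓞 M) (𝓞 Ω) a) =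
      algebraMap (𝓞 M) (𝓞 Ω) (γ • a) := by
    intro a
    apply RingOfIntegers.ext
    rw [Pool.Agent.W569.UF.Disc.coe_smul]
    have := AlgEquiv.restrictNormal_commutes g0 M (a : M)
    rw [← hg0]
    exact this.symm
  have hres' : ∀ a : 𝓞 M, g0⁻¹ • (algebraMap (𝓞 M) (𝓞 Ω) a) =
      algebraMap (𝓞 M) (𝓞 Ω) (γ⁻¹ • a) := by
    intro a
    rw [inv_smul_eq_iff, hres, smul_inv_smul]
  have hmemP : ∀ a : 𝓞 M, algebraMap (𝓞 M) (𝓞 Ω) a ∈ Q ↔ a ∈ P := by
    intro a
    rw [hQP.over]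
    rfl
  have hQ' : (g0 • Q).IsPrime := inferInstance
  have hunder : (g0 • Q).under (𝓞 M) = Q.under (𝓞 M) := by
    ext a
    rw [Ideal.under_def, Ideal.mem_comap, Ideal.under_def, Ideal.mem_comap,
      Ideal.mem_pointwise_smul_iff_inv_smul_mem, hres', hmemP, hmemP]
    have h1 : γ⁻¹ • a - a ∈ P := (inv_mem hγ) a
    constructor
    · intro h2
      have := P.sub_mem h2 h1
      rwa [sub_sub_cancel] at this
    · intro h2
      have := P.add_mem h1 h2
      rwa [sub_add_cancel] at this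
  obtain ⟨h, hh⟩ := Algebra.IsInvariant.exists_smul_of_under_eq_of_profinite
    (A := 𝓞 M) (G := M.fixingSubgroup) (g0 • Q) Q hunder
  set g1 : Gal(Ω/F) := h.1 * g0 with hg1
  have hg1Q : g1 • Q = Q := by
    rw [hg1, mul_smul]
    exact hh.symm
  have hres1 : ∀ a : 𝓞 M, g1 • (algebraMap (𝓞 M) (𝓞 Ω) a) =
      algebraMap (𝓞 M) (𝓞 Ω) (γ • a) := by
    intro a
    rw [hg1, mul_smul, hres]
    exact smul_algebraMap h (γ • a)
  have hmap : Q = Q.map (MulSemiringAction.toRingEquiv Gal(Ω/F) (𝓞 Ω) g1 : 𝓞 Ω →+* 𝓞 Ω) := by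
    conv_lhs => rw [← hg1Q]
    rw [Ideal.pointwise_smul_def]
    rfl
  let σ : (𝓞 Ω ⧸ Q) ≃ₐ[𝓞 M ⧸ P] (𝓞 Ω ⧸ Q) :=
    AlgEquiv.ofRingEquiv (f := Ideal.quotientEquiv Q Q
      (MulSemiringAction.toRingEquiv Gal(Ω/F) (𝓞 Ω) g1) hmap) (by
      intro a
      obtain ⟨a, rfl⟩ := Ideal.Quotient.mk_surjective a
      show Ideal.Quotient.mk Q (g1 • algebraMap (𝓞 M) (𝓞 Ω) a) =
        Ideal.Quotient.mk Q (algebraMap (𝓞 M) (𝓞 Ω) a)
      rw [Ideal.Quotient.mk_eq_mk_iff_sub_mem, hres1, ← map_sub, hmemP]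
      exact hγ a)
  obtain ⟨k, hk⟩ := Ideal.Quotient.stabilizerHom_surjective_of_profinite
    (G := M.fixingSubgroup) P Q σ
  have hk' : ∀ x : 𝓞 Ω, g1 • x - k.1.1 • x ∈ Q := by
    intro x
    have h1 := DFunLike.congr_fun hk (Ideal.Quotient.mk Q x)
    rw [Ideal.Quotient.stabilizerHom_apply] at h1
    rw [← Ideal.Quotient.mk_eq_mk_iff_sub_mem]
    exact h1.symm
  have hker : ∀ g ∈ M.fixingSubgroup, f g = 1 := by
    intro g hg
    rw [hfix] at hg
    exact hg
  obtain ⟨k1, hkU, hkQ, hk'⟩ : ∃ k1 : Gal(Ω/F), f k1 = 1 ∧ k1 • Q = Q ∧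
      ∀ x : 𝓞 Ω, g1 • x - k1 • x ∈ Q := ⟨k.1.1, hker k.1.1 k.1.2, k.2, hk'⟩
  have hτ : ∀ x : 𝓞 Ω, (k1⁻¹ * g1) • x - x ∈ Q := by
    intro x
    have h1 := hk' x
    rw [← hkQ, Ideal.mem_pointwise_smul_iff_inv_smul_mem, smul_sub, inv_smul_smul,
      ← mul_smul] at h1
    exact h1
  have h5 : f (k1⁻¹ * g1) = 1 := hI _ hτ
  have h6 : g0 ∈ f.ker := by
    have h7 : f h.1 = 1 := hker h.1 h.2
    rw [hg1, map_mul, map_mul, map_inv, hkU, h7, inv_one, one_mul, one_mul] at h5
    exact h5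
  rw [← hfix, IntermediateField.mem_fixingSubgroup_iff] at h6
  rw [← hg0]
  ext x
  have h7 := AlgEquiv.restrictNormal_commutes g0 M x
  have h8 := h6 _ x.2
  exact h7.trans h8

/-- Trivial inertia group: the valuations do not change. -/
theorem valuation_eq {F M : Type} [Field F] [NumberField F] [Field M] [NumberField M] [Algebra F M]
    [IsGalois F M] (v : HeightOneSpectrum (𝓞 F)) (w : HeightOneSpectrum (𝓞 M))
    [w.asIdeal.LiesOver v.asIdeal]
    (h : ∀ γ : M ≃ₐ[F] M, γ ∈ w.asIdeal.inertia (M ≃ₐ[F] M) → γ = 1) (x : F) :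
    v.valuation F x = w.valuation M (algebraMap F M x) := by
  have hG1 : IsGaloisGroup (M ≃ₐ[F] M) (𝓞 F) (𝓞 M) :=
    IsGaloisGroup.of_isFractionRing (M ≃ₐ[F] M) (𝓞 F) (𝓞 M) F M
  have hPm : w.asIdeal.IsMaximal := w.isMaximal
  have hlo : w.asIdeal.under (𝓞 F) = v.asIdeal := (w.asIdeal.over_def v.asIdeal).symm
  have e1 : Nat.card (w.asIdeal.inertia (M ≃ₐ[F] M)) = w.asIdeal.ramificationIdx (𝓞 F) := by
    rw [Ideal.card_inertia_eq_ramificationIdxIn (w.asIdeal.under (𝓞 F)),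
      Ideal.ramificationIdxIn_eq_ramificationIdx (w.asIdeal.under (𝓞 F)) w.asIdeal (M ≃ₐ[F] M)]
  have e2 : Nat.card (w.asIdeal.inertia (M ≃ₐ[F] M)) = 1 := by
    have : w.asIdeal.inertia (M ≃ₐ[F] M) = ⊥ := by
      rw [eq_bot_iff]
      intro γ hγ
      rw [Subgroup.mem_bot]
      exact h γ hγ
    rw [this]
    simp
  have e3 : v.asIdeal.ramificationIdx' w.asIdeal = 1 := by
    rw [Ideal.ramificationIdx'_eq_ramificationIdx v.asIdeal w.asIdeal v.ne_bot, ← e1, e2]
  have e4 := HeightOneSpectrum.valuation_liesOver (K := F) M v w x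
  rw [e3, pow_one] at e4
  exact e4

/-- Automorphisms which fix a prime ideal preserve the valuation. -/
theorem Vl_aut {K : Type} [Field K] [NumberField K] (v : HeightOneSpectrum (𝓞 K)) (e : K ≃+* K)
    (he : ∀ x : 𝓞 K, RingOfIntegers.mapRingEquiv e x ∈ v.asIdeal ↔ x ∈ v.asIdeal) {x : K}
    (hx : x ≠ 0) : Vl v (e x) = Vl v x := by
  have hmap : v.asIdeal.map (RingOfIntegers.mapRingEquiv e : 𝓞 K →+* 𝓞 K) = v.asIdeal := by
    apply le_antisymm
    · rw [Ideal.map_le_iff_le_comap]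
      intro y hy
      exact (he y).2 hy
    · intro y hy
      obtain ⟨z, rfl⟩ := (RingOfIntegers.mapRingEquiv e).surjective y
      exact Ideal.mem_map_of_mem _ ((he z).1 hy)
  have hmem : ∀ (n : ℕ) (y : 𝓞 K), RingOfIntegers.mapRingEquiv e y ∈ v.asIdeal ^ n ↔
      y ∈ v.asIdeal ^ n := by
    intro n y
    conv_lhs => rw [← hmap, ← Ideal.map_pow]
    constructor
    · intro h
      obtain ⟨z, hz, hzy⟩ := (Ideal.mem_map_iff_of_surjective
        (RingOfIntegers.mapRingEquiv e : 𝓞 K →+* 𝓞 K)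
        (RingOfIntegers.mapRingEquiv e).surjective).1 h
      rwa [← (RingOfIntegers.mapRingEquiv e).injective hzy]
    · intro h
      exact Ideal.mem_map_of_mem _ h
  have hint : ∀ y : 𝓞 K, y ≠ 0 →
      v.intValuation (RingOfIntegers.mapRingEquiv e y) = v.intValuation y := by
    intro y hy
    have hy' : RingOfIntegers.mapRingEquiv e y ≠ 0 := by simpa using hy
    apply le_antisymm
    · rw [HeightOneSpectrum.intValuation_eq_exp_neg_multiplicity v hy,
        HeightOneSpectrum.intValuation_le_pow_iff_mem, hmem,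
        ← HeightOneSpectrum.intValuation_le_pow_iff_mem,
        HeightOneSpectrum.intValuation_eq_exp_neg_multiplicity v hy]
    · rw [HeightOneSpectrum.intValuation_eq_exp_neg_multiplicity v hy',
        HeightOneSpectrum.intValuation_le_pow_iff_mem, ← hmem,
        ← HeightOneSpectrum.intValuation_le_pow_iff_mem,
        HeightOneSpectrum.intValuation_eq_exp_neg_multiplicity v hy']
  have hVint : ∀ y : 𝓞 K, y ≠ 0 → Vl v (e (y : K)) = Vl v (y : K) := by
    intro y hy
    unfold Vl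
    have h1 : e (y : K) = ((RingOfIntegers.mapRingEquiv e y : 𝓞 K) : K) := rfl
    rw [h1, HeightOneSpectrum.valuation_of_algebraMap, HeightOneSpectrum.valuation_of_algebraMap,
      hint y hy]
  obtain ⟨r, s, hs, hrs⟩ := IsFractionRing.div_surjective (A := 𝓞 K) x
  have hs0 : s ≠ 0 := nonZeroDivisors.ne_zero hs
  have hsK : (s : K) ≠ 0 := by simpa using hs0
  have hr : (r : K) = x * s := by
    rw [← hrs]
    change (r : K) = (r : K) / (s : K) * s
    field_simp
  have hr0 : r ≠ 0 := by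
    rintro rfl
    have : x * (s : K) = 0 := by rw [← hr]; simp
    exact (mul_ne_zero hx hsK) this
  have h1 := hVint r hr0
  have h2 := hVint s hs0
  have h3 : Vl v (r : K) = Vl v x + Vl v (s : K) := by rw [hr, Vl_mul v hx hsK]
  have h4 : Vl v (e (r : K)) = Vl v (e x) + Vl v (e (s : K)) := by
    rw [hr, map_mul, Vl_mul v (by simpa using hx) (by simpa using hsK)]
  linarith

section

variable {F : Type} [Field F] [NumberField F] {K : IntermediateField F (AlgebraicClosure F)}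
  [NumberField K] {p : ℕ} [hp : Fact p.Prime] {ζ : AlgebraicClosure F}

theorem kum_unram [IsGalois F K] (hζ : IsPrimitiveRoot ζ p)
    {g : K.fixingSubgroup →* Multiplicative (ZMod p)}
    {u : AlgebraicClosure F} (h : Kum K ζ g u) (Q : Ideal (𝓞 (AlgebraicClosure F)))
    (hQ : Q.IsMaximal) (v : HeightOneSpectrum (𝓞 K))
    (hv : Q.under (𝓞 K) = v.asIdeal)
    (hI : ∀ τ : K.fixingSubgroup, (∀ x : 𝓞 (AlgebraicClosure F),
      (τ : Gal(AlgebraicClosure F/F)) • x - x ∈ Q) → g τ = 1) :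
    (p : ℤ) ∣ Vl v (⟨u ^ p, h.pow_mem hζ.pow_eq_one⟩ : K) := by
  classical
  let f : Gal(AlgebraicClosure F/K) →* Multiplicative (ZMod p) :=
    g.comp (IntermediateField.fixingSubgroupEquiv K).symm.toMonoidHom
  have hf : ∀ τ : Gal(AlgebraicClosure F/K), τ u = ζ ^ (Multiplicative.toAdd (f τ)).val * u := by
    intro τ
    exact h.2 ((IntermediateField.fixingSubgroupEquiv K).symm τ)
  let M : IntermediateField K (AlgebraicClosure F) := K⟮u⟯
  have hint : IsIntegral K u := (Algebra.IsAlgebraic.isAlgebraic (R := K) u).isIntegral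
  have hfd : FiniteDimensional K M := IntermediateField.adjoin.finiteDimensional hint
  have huM : u ∈ M := IntermediateField.mem_adjoin_simple_self K u
  have hfix : M.fixingSubgroup = f.ker := by
    ext τ
    rw [IntermediateField.mem_fixingSubgroup_iff, MonoidHom.mem_ker]
    constructor
    · intro h1
      have h2 := h1 u huM
      rw [hf] at h2
      have h3 : ζ ^ (Multiplicative.toAdd (f τ)).val = 1 := by
        have h4 : (ζ ^ (Multiplicative.toAdd (f τ)).val - 1) * u = 0 := by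
          rw [sub_mul, one_mul, h2, sub_self]
        exact sub_eq_zero.1 ((mul_eq_zero.1 h4).resolve_right h.1)
      have h4 : (Multiplicative.toAdd (f τ)).val = 0 :=
        Nat.eq_zero_of_dvd_of_lt (hζ.dvd_of_pow_eq_one _ h3) (ZMod.val_lt _)
      exact (ZMod.val_eq_zero _).1 h4
    · intro h1
      have h2 : τ u = u := by
        rw [hf, h1, toAdd_one, ZMod.val_zero, pow_zero, one_mul]
      have h3 : M ≤ fixedField (Subgroup.zpowers τ) := by
        rw [IntermediateField.adjoin_simple_le_iff, IntermediateField.mem_fixedField_iff]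
        intro g' hg'
        obtain ⟨n, rfl⟩ := Subgroup.mem_zpowers_iff.1 hg'
        have h4 : τ ∈ MulAction.stabilizer (Gal(AlgebraicClosure F/K)) u := h2
        exact Subgroup.zpow_mem _ h4 n
      intro x hx
      exact (IntermediateField.mem_fixedField_iff _ _).1 (h3 hx) _ (Subgroup.mem_zpowers _)
  have hgal : IsGalois K M := by
    rw [← InfiniteGalois.normal_iff_isGalois, hfix]
    infer_instance
  have hnf : NumberField M := by
    have : FiniteDimensional ℚ M := Module.Finite.trans K M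
    exact ⟨⟩
  have hPm : (Q.under (𝓞 M)).IsMaximal := Ideal.IsMaximal.under (𝓞 M) Q
  let w : HeightOneSpectrum (𝓞 M) := ⟨Q.under (𝓞 M), hPm.isPrime,
    Ideal.IsMaximal.ne_bot_of_isIntegral_int _⟩
  have hlo : w.asIdeal.LiesOver v.asIdeal := by
    refine ⟨?_⟩
    change v.asIdeal = (Q.under (𝓞 M)).under (𝓞 K)
    rw [Ideal.under_under, hv]
  have hin := inert_at (F := K) (Multiplicative (ZMod p)) f M hfix Q hQ (fun τ hτ =>
    hI ((IntermediateField.fixingSubgroupEquiv K).symm τ) hτ)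
  have h5 := valuation_eq v w hin (⟨u ^ p, h.pow_mem hζ.pow_eq_one⟩ : K)
  have h6 : algebraMap K M (⟨u ^ p, h.pow_mem hζ.pow_eq_one⟩ : K) = (⟨u, huM⟩ : M) ^ p :=
    Subtype.ext rfl
  unfold Vl
  rw [h5, h6]
  have h7 : (⟨u, huM⟩ : M) ≠ 0 := fun h0 => h.1 (congrArg Subtype.val h0)
  exact ⟨_, Vl_pow w h7 p⟩

end

end Pool.Agent.Y802.EV
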