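import Mathlib
import Pool.Agent.Y802.EV.Ram

/-!
# Reflection: equivariant families of characters of a CM field
-/

set_option autoImplicit false
set_option linter.unusedSectionVars false

namespace Pool.Agent.Y802.EV

open NumberField IsDedekindDomain IntermediateField

theorem SameClass.symm {K : Type} [Field K] [NumberField K] {I J : Ideal (𝓞 K)}
    (h : SameClass I J) : SameClass J I := by
  obtain ⟨x, y, hx, hy, e⟩ := h
  exact ⟨y, x, hy, hx, e.symm⟩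

section

variable {F : Type} [Field F] [NumberField F] {K : IntermediateField F (AlgebraicClosure F)}
  [NumberField K] [IsGalois F K] {p : ℕ} [hp : Fact p.Prime]

/-- The automorphism of `K` induced by `σ`. -/
noncomputable def au (K : IntermediateField F (AlgebraicClosure F)) [IsGalois F K]
    (σ : Gal(AlgebraicClosure F/F)) : K ≃+* K :=
  (AlgEquiv.restrictNormalHom K σ : K ≃ₐ[F] K)

theorem au_apply (σ : Gal(AlgebraicClosure F/F)) (x : K) :
    ((au K σ x : K) : AlgebraicClosure F) = σ x :=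
  AlgEquiv.restrictNormalHom_apply _ _ _

theorem au_mem (σ : Gal(AlgebraicClosure F/F)) {x : AlgebraicClosure F} (hx : x ∈ K) : σ x ∈ K := by
  rw [← au_apply σ (⟨x, hx⟩ : K)]
  exact (au K σ ⟨x, hx⟩).2

/-- The action of `σ` on the ideals of the ring of integers of `K`. -/
noncomputable def auI (K : IntermediateField F (AlgebraicClosure F)) [NumberField K] [IsGalois F K]
    (σ : Gal(AlgebraicClosure F/F)) (I : Ideal (𝓞 K)) : Ideal (𝓞 K) :=
  I.map (RingOfIntegers.mapRingEquiv (au K σ) : 𝓞 K →+* 𝓞 K)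

/-- `σ` maps `v` to itself. -/
def Fixes (v : HeightOneSpectrum (𝓞 K)) (σ : Gal(AlgebraicClosure F/F)) : Prop :=
  ∀ x : 𝓞 K, RingOfIntegers.mapRingEquiv (au K σ) x ∈ v.asIdeal ↔ x ∈ v.asIdeal

theorem exists_cyc (hp1 : p ≠ 0) {ζ : AlgebraicClosure F} (hζ : IsPrimitiveRoot ζ p)
    (σ : Gal(AlgebraicClosure F/F)) :
    ∃ c : ℕ, ∀ z : AlgebraicClosure F, z ^ p = 1 → σ z = z ^ c := by
  have : NeZero p := ⟨hp1⟩
  have h1 : (σ ζ) ^ p = 1 := by rw [← map_pow, hζ.pow_eq_one, map_one]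
  obtain ⟨c, -, hc⟩ := hζ.eq_pow_of_pow_eq_one h1
  refine ⟨c, fun z hz => ?_⟩
  obtain ⟨i, -, rfl⟩ := hζ.eq_pow_of_pow_eq_one hz
  rw [map_pow, ← hc, ← pow_mul, ← pow_mul, mul_comm]

/-- The action on a root of unity of `K`, modulo `p`-th powers. -/
theorem root_of_unity {ζ : AlgebraicClosure F} (hζ : IsPrimitiveRoot ζ p)
    (σ : Gal(AlgebraicClosure F/F)) {c : ℕ} (hc : σ ζ = ζ ^ c) {ξ : AlgebraicClosure F}
    (hξK : ξ ∈ K) {n : ℕ} (hn : 0 < n) (hξ : ξ ^ n = 1) :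
    ∃ t ∈ K, t ≠ 0 ∧ σ ξ = ξ ^ c * t ^ p := by
  have hξ0 : ξ ≠ 0 := by
    rintro rfl
    rw [zero_pow hn.ne'] at hξ
    exact zero_ne_one hξ
  have hfo : IsOfFinOrder ξ := isOfFinOrder_iff_pow_eq_one.2 ⟨n, hn, hξ⟩
  have hpos : 0 < orderOf ξ := hfo.orderOf_pos
  have hprim : IsPrimitiveRoot ξ (orderOf ξ) := IsPrimitiveRoot.orderOf ξ
  have hne : NeZero (orderOf ξ) := ⟨hpos.ne'⟩
  have hnep : NeZero p := ⟨hp.out.ne_zero⟩
  by_cases hd : p ∣ orderOf ξ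
  · obtain ⟨k, hk⟩ := hd
    have hk0 : k ≠ 0 := by
      rintro rfl
      omega
    have h1 : IsPrimitiveRoot (ξ ^ k) p := hprim.pow hpos (by rw [hk, mul_comm])
    obtain ⟨i, -, hi⟩ := h1.eq_pow_of_pow_eq_one hζ.pow_eq_one
    have h2 : (σ ξ) ^ (orderOf ξ) = 1 := by rw [← map_pow, pow_orderOf_eq_one, map_one]
    obtain ⟨j, -, hj⟩ := hprim.eq_pow_of_pow_eq_one h2
    have h3 : σ ζ = ζ ^ j := by
      rw [← hi, map_pow, map_pow, ← hj, ← pow_mul, ← pow_mul, ← pow_mul, ← pow_mul]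
      congr 1
      ring
    have h4 : ζ ^ j = ζ ^ c := by rw [← h3, hc]
    have h5 : j ≡ c [MOD p] := by
      rw [hζ.eq_orderOf]
      exact (isOfFinOrder_iff_pow_eq_one.2 ⟨p, hp.out.pos, hζ.pow_eq_one⟩).pow_eq_pow_iff_modEq.1 h4
    obtain ⟨d, hdd⟩ : (p : ℤ) ∣ (j : ℤ) - c := (Int.natCast_modEq_iff.2 h5).symm.dvd
    refine ⟨ξ ^ d, zpow_mem hξK d, zpow_ne_zero _ hξ0, ?_⟩
    rw [← hj, ← zpow_natCast (ξ ^ d), ← zpow_mul, ← zpow_natCast, ← zpow_natCast, ← zpow_add₀ hξ0]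
    congr 1
    rw [mul_comm d]
    linarith
  · have hcop : Nat.Coprime p (orderOf ξ) := (Nat.Prime.coprime_iff_not_dvd hp.out).2 hd
    obtain ⟨a, b, hab⟩ := Nat.isCoprime_iff_coprime.2 hcop
    obtain ⟨η, hηK, hη0, hi⟩ : ∃ η ∈ K, η ≠ 0 ∧ η ^ p = ξ := by
      refine ⟨ξ ^ a, zpow_mem hξK a, zpow_ne_zero _ hξ0, ?_⟩
      have h1 : ξ ^ (b * (orderOf ξ : ℤ)) = 1 := by
        rw [mul_comm, zpow_mul, zpow_natCast, pow_orderOf_eq_one, one_zpow]
      calc (ξ ^ a) ^ p = ξ ^ (a * p) := by rw [zpow_mul, zpow_natCast]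
        _ = ξ ^ (a * p) * ξ ^ (b * (orderOf ξ : ℤ)) := by rw [h1, mul_one]
        _ = ξ ^ (a * p + b * (orderOf ξ : ℤ)) := by rw [zpow_add₀ hξ0]
        _ = ξ := by rw [hab, zpow_one]
    refine ⟨σ η / η ^ c, div_mem (au_mem σ hηK) (pow_mem hηK c),
      div_ne_zero (by simpa using hη0) (pow_ne_zero _ hη0), ?_⟩
    have e1 : σ ξ = (σ η) ^ p := by
      conv_lhs => rw [← hi, map_pow]
    have e2 : ξ ^ c = (η ^ c) ^ p := by
      conv_lhs => rw [← hi, ← pow_mul, mul_comm p c, pow_mul]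
    have e3 : (η ^ c) ^ p ≠ 0 := pow_ne_zero _ (pow_ne_zero _ hη0)
    rw [e1, div_pow, e2]
    field_simp

end

end Pool.Agent.Y802.EV
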