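import Mathlib
import Pool.Agent.Y802.EV.Refl

/-!
# Reflection: the main theorem on equivariant families of characters
-/

set_option autoImplicit false
set_option linter.unusedSectionVars false

namespace Pool.Agent.Y802.EV

open NumberField IsDedekindDomain IntermediateField

section

variable {F : Type} [Field F] [NumberField F] {K : IntermediateField F (AlgebraicClosure F)}
  [NumberField K] [IsGalois F K] {p : ℕ} [hp : Fact p.Prime]

theorem exp_p (g : K.fixingSubgroup →* Multiplicative (ZMod p)) : g ^ p = 1 := by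
  ext x
  have : (p : ℕ) • Multiplicative.toAdd (g x) = 0 := by
    rw [nsmul_eq_mul, CharP.cast_eq_zero, zero_mul]
  exact this

/-- Units whose product with the complex conjugate is a `p`-th power. -/
theorem unit_root (c : Gal(AlgebraicClosure F/F))
    (hc : ∀ φ : AlgebraicClosure F →+* ℂ, ∀ x ∈ K, φ (c x) = (starRingEnd ℂ) (φ x))
    (ε : (𝓞 K)ˣ) : ∃ n : ℕ, 0 < n ∧
      ((((ε : 𝓞 K) : K) : AlgebraicClosure F) / c (((ε : 𝓞 K) : K) : AlgebraicClosure F)) ^ n
        = 1 := by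
  set e : K := ((ε : 𝓞 K) : K) with he
  have he0 : e ≠ 0 := by
    rw [he]
    simp
  have hc0 : au K c e ≠ 0 := by simpa using he0
  have hint1 : IsIntegral ℤ e := (ε : 𝓞 K).2
  have hint2 : IsIntegral ℤ (au K c e)⁻¹ := by
    have h1 : (au K c e)⁻¹ = au K c (((ε⁻¹ : (𝓞 K)ˣ) : 𝓞 K) : K) := by
      rw [inv_eq_iff_eq_inv, ← map_inv₀]
      congr 1
      have := congrArg (fun z : 𝓞 K => (z : K)) (Units.mul_inv ε)
      push_cast at this
      exact eq_inv_of_mul_eq_one_left this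
    rw [h1]
    exact map_isIntegral_int (au K c : K →+* K) ((ε⁻¹ : (𝓞 K)ˣ) : 𝓞 K).2
  have hint : IsIntegral ℤ (e / au K c e) := by
    rw [div_eq_mul_inv]
    exact hint1.mul hint2
  have hnorm : ∀ φ : K →+* ℂ, ‖φ (e / au K c e)‖ = 1 := by
    intro φ
    let _ : Algebra K ℂ := φ.toAlgebra
    let ψ : AlgebraicClosure F →ₐ[K] ℂ := IsAlgClosed.lift
    have h1 : ∀ x : K, φ x = ψ (x : AlgebraicClosure F) := fun x => (ψ.commutes x).symm
    have h2 : φ (au K c e) = (starRingEnd ℂ) (φ e) := by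
      rw [h1, h1, au_apply]
      exact hc (ψ : AlgebraicClosure F →+* ℂ) e e.2
    rw [map_div₀, h2, norm_div, RCLike.norm_conj, div_self]
    rw [norm_ne_zero_iff]
    exact (map_ne_zero φ).2 he0
  obtain ⟨n, hn, h⟩ := NumberField.Embeddings.pow_eq_one_of_norm_eq_one K ℂ hint hnorm
  refine ⟨n, hn, ?_⟩
  have h1 := congrArg (fun x : K => (x : AlgebraicClosure F)) h
  push_cast at h1
  rw [au_apply] at h1
  exact h1

/-- The main theorem. -/
theorem reflection (hp2 : p ≠ 2) (hK : ∀ z : AlgebraicClosure F, z ^ p = 1 → z ∈ K)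
    (M : Type) [AddCommGroup M] (act : Gal(AlgebraicClosure F/F) → M → M)
    (f : M → (K.fixingSubgroup →* Multiplicative (ZMod p)))
    (hadd : ∀ m m', f (m + m') = f m * f m')
    (hopen : ∀ m, IsOpen ((f m).ker : Set K.fixingSubgroup))
    (heq : ∀ (σ : Gal(AlgebraicClosure F/F)) (c : ℕ),
      (∀ z : AlgebraicClosure F, z ^ p = 1 → σ z = z ^ c) → ∀ m, f (act σ m) = cj σ (f m) ^ c)
    (hloc : ∀ v : HeightOneSpectrum (𝓞 K),
      (∃ Q : Ideal (𝓞 (AlgebraicClosure F)), Q.IsMaximal ∧ Q.under (𝓞 K) = v.asIdeal ∧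
        ∀ τ : K.fixingSubgroup, (∀ x : 𝓞 (AlgebraicClosure F),
          (τ : Gal(AlgebraicClosure F/F)) • x - x ∈ Q) → ∀ m, f m τ = 1) ∨
      (∀ θ : M →+ ZMod p, (∀ σ, Fixes v σ → ∀ m, θ (act σ m) = θ m) → θ = 0))
    (hcls : ∀ I : M → Ideal (𝓞 K), (∀ m, I m ≠ ⊥) → (∀ m m', SameClass (I (m + m')) (I m * I m')) →
      (∀ σ m, SameClass (I (act σ m)) (auI K σ (I m))) → ∀ m, (I m).IsPrincipal)
    (c : Gal(AlgebraicClosure F/F))
    (hc : ∀ φ : AlgebraicClosure F →+* ℂ, ∀ x ∈ K, φ (c x) = (starRingEnd ℂ) (φ x))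
    (hcM : ∀ m, act c m = -m) (σ : Gal(AlgebraicClosure F/F)) (b : ℕ)
    (hb : ∀ z : AlgebraicClosure F, z ^ p = 1 → σ z = z ^ b) (m : M) :
    f (act σ m) = f m ^ b := by
  classical
  have hp0 : p ≠ 0 := hp.out.ne_zero
  have : NeZero p := ⟨hp0⟩
  have : NeZero (p : AlgebraicClosure F) := ⟨by exact_mod_cast hp0⟩
  obtain ⟨ζ, hζ⟩ : ∃ ζ : AlgebraicClosure F, IsPrimitiveRoot ζ p :=
    HasEnoughRootsOfUnity.exists_primitiveRoot (AlgebraicClosure F) p
  have hζ1 := hζ.pow_eq_one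
  have hζ0 : ζ ≠ 0 := hζ.ne_zero hp0
  choose u hu using fun m => Kum.exists hζ hK (f m) (hopen m)
  have huK : ∀ m, (u m) ^ p ∈ K := fun m => (hu m).pow_mem hζ1
  let a : M → K := fun m => ⟨u m ^ p, huK m⟩
  have ha : ∀ m, a m ≠ 0 := fun m h0 =>
    pow_ne_zero p (hu m).1 (congrArg (fun x : K => (x : AlgebraicClosure F)) h0)
  -- additivity
  have h1 : ∀ m m', ∃ k : K, k ≠ 0 ∧ a (m + m') = a m * a m' * k ^ p := by
    intro m m'
    have e1 : Kum K ζ (f (m + m')) (u m * u m') := by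
      rw [hadd]
      exact (hu m).mul hζ1 (hu m')
    have e2 := (hu (m + m')).div_mem hζ0 e1
    refine ⟨⟨_, e2⟩, fun h0 => div_ne_zero (hu (m + m')).1 e1.1
      (congrArg (fun x : K => (x : AlgebraicClosure F)) h0), Subtype.ext ?_⟩
    change u (m + m') ^ p = u m ^ p * u m' ^ p * (u (m + m') / (u m * u m')) ^ p
    have e3 := (hu m).1
    have e4 := (hu m').1
    rw [div_pow, mul_pow]
    field_simp
  -- equivariance
  have h2 : ∀ σ m, ∃ k : K, k ≠ 0 ∧ a (act σ m) = au K σ (a m) * k ^ p := by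
    intro σ m
    obtain ⟨c', hc'⟩ := exists_cyc hp0 hζ σ
    have e1 : Kum K ζ (f (act σ m)) (σ (u m)) := by
      rw [heq σ c' hc']
      exact (hu m).conj hζ1 σ (hc' ζ hζ1)
    have e2 := (hu (act σ m)).div_mem hζ0 e1
    refine ⟨⟨_, e2⟩, fun h0 => div_ne_zero (hu (act σ m)).1 e1.1
      (congrArg (fun x : K => (x : AlgebraicClosure F)) h0), Subtype.ext ?_⟩
    change u (act σ m) ^ p = ((au K σ (a m) : K) : AlgebraicClosure F) *
      (u (act σ m) / σ (u m)) ^ p
    rw [au_apply]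
    change u (act σ m) ^ p = σ (u m ^ p) * (u (act σ m) / σ (u m)) ^ p
    have e3 := e1.1
    rw [div_pow, map_pow]
    field_simp
  -- the valuations are divisible by `p`
  have h3 : ∀ (v : HeightOneSpectrum (𝓞 K)) (m : M), (p : ℤ) ∣ Vl v (a m) := by
    intro v
    rcases hloc v with ⟨Q, hQ, hQv, hI⟩ | hθ
    · intro m
      exact kum_unram hζ (hu m) Q hQ v hQv fun τ hτ => hI τ hτ m
    · let θ : M →+ ZMod p := AddMonoidHom.mk' (fun m => ((Vl v (a m) : ℤ) : ZMod p)) (by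
        intro m m'
        obtain ⟨k, hk, e⟩ := h1 m m'
        rw [e, Vl_mul v (mul_ne_zero (ha m) (ha m')) (pow_ne_zero _ hk),
          Vl_mul v (ha m) (ha m'), Vl_pow v hk]
        push_cast
        rw [CharP.cast_eq_zero, zero_mul, add_zero])
      have e1 := hθ θ fun σ hσ m => by
        change ((Vl v (a (act σ m)) : ℤ) : ZMod p) = ((Vl v (a m) : ℤ) : ZMod p)
        obtain ⟨k, hk, e⟩ := h2 σ m
        rw [e, Vl_mul v (by simpa using ha m) (pow_ne_zero _ hk), Vl_pow v hk,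
          Vl_aut v (au K σ) hσ (ha m)]
        push_cast
        rw [CharP.cast_eq_zero, zero_mul, add_zero]
      intro m
      have e2 : ((Vl v (a m) : ℤ) : ZMod p) = 0 := DFunLike.congr_fun e1 m
      exact (ZMod.intCast_zmod_eq_zero_iff_dvd _ _).1 e2
  choose I hI using fun m => rt_exists hp0 (ha m) fun v => h3 v m
  have h4 : ∀ m, (I m).IsPrincipal := by
    refine hcls I (fun m => (hI m).1) (fun m m' => ?_) fun σ m => ?_
    · obtain ⟨k, hk, e⟩ := h1 m m'
      exact (rt_unique hp0 hk e (rt_mul (hI m) (hI m')) (hI (m + m'))).symm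
    · obtain ⟨k, hk, e⟩ := h2 σ m
      exact (rt_unique hp0 hk e (rt_map (au K σ) (hI m)) (hI (act σ m))).symm
  -- the square of the generator is a root of unity up to `p`-th powers
  obtain ⟨ε, w, hw, e1⟩ := rt_principal (hI m) (h4 m)
  set e : AlgebraicClosure F := (((ε : 𝓞 K) : K) : AlgebraicClosure F) with he
  have heK : e ∈ K := ((ε : 𝓞 K) : K).2
  have he0 : e ≠ 0 := by
    rw [he]
    simp
  have hwΩ : ((w : K) : AlgebraicClosure F) ≠ 0 := by simpa using hw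
  have e2 : u m ^ p = e * (w : AlgebraicClosure F) ^ p :=
    congrArg (fun x : K => (x : AlgebraicClosure F)) e1
  have hf0 : f 0 = 1 := by
    have h5 := hadd 0 0
    rw [add_zero] at h5
    exact (mul_eq_left.1 h5.symm)
  obtain ⟨n, hn, hξ⟩ := unit_root c hc ε
  rw [← he] at hξ
  have hce0 : c e ≠ 0 := by simpa using he0
  -- `c (u m) * u m` lies in `K`
  have h6 : c (u m) * u m ∈ K := by
    obtain ⟨c', hc'⟩ := exists_cyc hp0 hζ c
    have k1 : Kum K ζ (f (-m)) (c (u m)) := by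
      rw [← hcM m, heq c c' hc']
      exact (hu m).conj hζ1 c (hc' ζ hζ1)
    have k2 := k1.mul hζ1 (hu m)
    rw [← hadd, neg_add_cancel, hf0] at k2
    have k3 := k2.div_mem hζ0 (Kum.one K ζ)
    rwa [div_one] at k3
  set s : AlgebraicClosure F := c (u m) * u m / (w * c w) with hs
  have hsK : s ∈ K := div_mem h6 (mul_mem w.2 (au_mem c w.2))
  have hcw0 : c (w : AlgebraicClosure F) ≠ 0 := by simpa using hwΩ
  have h7 : e * c e = s ^ p := by
    have k1 : c (u m) ^ p = c e * (c (w : AlgebraicClosure F)) ^ p := by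
      rw [← map_pow, e2, map_mul, map_pow]
    rw [hs, div_pow, mul_pow, mul_pow, k1, e2]
    field_simp
  have hs0 : s ≠ 0 := by
    intro h0
    rw [h0, zero_pow hp0] at h7
    exact mul_ne_zero he0 hce0 h7
  set ξ : AlgebraicClosure F := e / c e with hξd
  have hξK : ξ ∈ K := div_mem heK (au_mem c heK)
  have h8 : (u m ^ 2) ^ p = ξ * (s * w ^ 2) ^ p := by
    rw [← pow_mul, mul_comm 2 p, pow_mul, e2, mul_pow s, ← h7, hξd]
    field_simp
    ring
  obtain ⟨t, htK, ht0, ht⟩ := root_of_unity hζ σ (hb ζ hζ1) hξK hn hξ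
  -- the generators of the two characters
  have k1 : Kum K ζ (f (act σ m)) (σ (u m)) := by
    rw [heq σ b hb]
    exact (hu m).conj hζ1 σ (hb ζ hζ1)
  have k2 : Kum K ζ (f m ^ b) (u m ^ b) := (hu m).pow hζ1 b
  have k3 := k1.pow hζ1 2
  have k4 := k2.pow hζ1 2
  set y : AlgebraicClosure F := s * w ^ 2 with hy
  have hyK : y ∈ K := mul_mem hsK (pow_mem w.2 2)
  have hy0 : y ≠ 0 := mul_ne_zero hs0 (pow_ne_zero _ hwΩ)
  have hξ0 : ξ ≠ 0 := div_ne_zero he0 hce0
  clear_value y ξ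
  have h9 : (σ (u m) ^ 2 / (u m ^ b) ^ 2) ^ p = (t * σ y / y ^ b) ^ p := by
    have l1 : (σ (u m) ^ 2) ^ p = ξ ^ b * t ^ p * (σ y) ^ p := by
      rw [← map_pow, ← map_pow, h8, map_mul, map_pow, ht]
    have l2 : ((u m ^ b) ^ 2) ^ p = ξ ^ b * (y ^ b) ^ p := by
      have : ((u m ^ b) ^ 2) ^ p = ((u m ^ 2) ^ p) ^ b := by ring
      rw [this, h8]
      ring
    rw [div_pow (σ (u m) ^ 2), l1, l2, div_pow (t * σ y), mul_pow t, mul_assoc,
      mul_div_mul_left _ _ (pow_ne_zero b hξ0)]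
  have h10 : σ (u m) ^ 2 / (u m ^ b) ^ 2 ∈ K := by
    have l0 : t * σ y / y ^ b ≠ 0 :=
      div_ne_zero (mul_ne_zero ht0 (by simpa using hy0)) (pow_ne_zero _ hy0)
    have l1 : (σ (u m) ^ 2 / (u m ^ b) ^ 2) / (t * σ y / y ^ b) ∈ K := by
      apply hK
      rw [div_pow, h9, div_self (pow_ne_zero _ l0)]
    have l2 : t * σ y / y ^ b ∈ K := div_mem (mul_mem htK (au_mem σ hyK)) (pow_mem hyK b)
    have l3 := mul_mem l1 l2
    rwa [div_mul_cancel₀ _ l0] at l3
  have h11 := Kum.eq_of_div_mem hζ k3 k4 h10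
  obtain ⟨d, hd⟩ : ∃ d, p = 2 * d + 1 := (hp.out.eq_two_or_odd'.resolve_left hp2)
  have h12 : ∀ g : K.fixingSubgroup →* Multiplicative (ZMod p), (g ^ 2) ^ (d + 1) = g := by
    intro g
    have h13 : 2 * (d + 1) = p + 1 := by omega
    rw [← pow_mul, h13, pow_succ, exp_p, one_mul]
  rw [← h12 (f (act σ m)), h11, h12]

end

end Pool.Agent.Y802.EV
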