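import Mathlib
import Pool.Agent.Y802.QV.Res

/-!
# Ribet's lemma for two-dimensional representations over local rings
-/

set_option autoImplicit false
set_option linter.unusedSectionVars false

namespace Pool.Agent.Y802.EV

open IsLocalRing Matrix

theorem mul_mul_self_of_det {A : Type} [CommRing A] (X M : Matrix (Fin 2) (Fin 2) A)
    (h : X.det = 0) : X * M * X = (X * M).trace • X := by
  rw [Matrix.det_fin_two] at h
  ext i j
  fin_cases i <;> fin_cases j <;>
    simp [Matrix.mul_apply, Fin.sum_univ_two, Matrix.trace_fin_two]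
  · linear_combination (-M 1 1) * h
  · linear_combination (M 0 1) * h
  · linear_combination (M 1 0) * h
  · linear_combination (-M 0 0) * h

section

variable {A : Type} [CommRing A] [IsLocalRing A]

/-- A factorization of the characteristic polynomial. -/
theorem exists_roots [IsAdicComplete (maximalIdeal A) A] (h2 : (2 : ResidueField A) ≠ 0)
    (T : Matrix (Fin 2) (Fin 2) A) (x y : ResidueField A) (hxy : x ≠ y)
    (h1 : residue A T.trace = x + y) (h3 : residue A (T * T).trace = x * x + y * y) :
    ∃ l1 l2 : A, residue A l1 = x ∧ residue A l2 = y ∧ T.trace = l1 + l2 ∧ T.det = l1 * l2 := by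
  have hdet : residue A T.det = x * y := by
    have e1 : (T * T).trace = T.trace ^ 2 - 2 * T.det := by
      simp [Matrix.mul_apply, Fin.sum_univ_two, Matrix.trace_fin_two, Matrix.det_fin_two]
      ring
    rw [e1] at h3
    rw [map_sub, map_pow, map_mul, h1] at h3
    have e2 : residue A (2 : A) = 2 := map_ofNat _ 2
    rw [e2] at h3
    have e3 : (2 : ResidueField A) * (residue A T.det - x * y) = 0 := by linear_combination -h3
    exact sub_eq_zero.1 ((mul_eq_zero.1 e3).resolve_left h2)
  have hh : HenselianRing A (maximalIdeal A) := IsAdicComplete.henselianRing A (maximalIdeal A)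
  obtain ⟨a0, ha0⟩ := residue_surjective x
  let f : Polynomial A := Polynomial.X ^ 2 + Polynomial.C (-T.trace) * Polynomial.X +
    Polynomial.C T.det
  have hmon : f.Monic := by
    have : f = Polynomial.X ^ 2 + (Polynomial.C (-T.trace) * Polynomial.X + Polynomial.C T.det) := by
      simp only [f]; ring
    rw [this]
    apply Polynomial.monic_X_pow_add
    exact Polynomial.degree_linear_le.trans_lt (by norm_num)
  have hev : Polynomial.eval a0 f ∈ maximalIdeal A := by
    rw [← residue_eq_zero_iff]
    simp only [f, Polynomial.eval_add, Polynomial.eval_mul, Polynomial.eval_pow, Polynomial.eval_X,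
      Polynomial.eval_C, map_add, map_mul, map_neg, map_pow, ha0, h1, hdet, Polynomial.eval_neg]
    ring
  have hder : IsUnit ((Ideal.Quotient.mk (maximalIdeal A))
      (Polynomial.eval a0 (Polynomial.derivative f))) := by
    have e1 : Polynomial.derivative f = Polynomial.C 2 * Polynomial.X +
        Polynomial.C (-T.trace) := by
      simp only [f, Polynomial.derivative_add, Polynomial.derivative_X_pow,
        Polynomial.derivative_C, Polynomial.derivative_C_mul, Polynomial.derivative_X, mul_one,
        add_zero]
      norm_num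
    have e2 : (Ideal.Quotient.mk (maximalIdeal A))
        (Polynomial.eval a0 (Polynomial.derivative f)) = (x - y : ResidueField A) := by
      change residue A _ = _
      rw [e1]
      simp only [Polynomial.eval_add, Polynomial.eval_mul, Polynomial.eval_X,
        Polynomial.eval_C, map_add, map_mul, map_neg, ha0, h1, Polynomial.eval_neg]
      rw [map_ofNat]
      ring
    rw [e2]
    exact IsUnit.mk0 _ (sub_ne_zero.2 hxy)
  obtain ⟨l1, hr, hl⟩ := hh.is_henselian f hmon a0 hev hder
  have e1 : residue A l1 = x := by
    rw [← ha0]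
    exact sub_eq_zero.1 (by rw [← map_sub]; exact (residue_eq_zero_iff _).2 hl)
  have e2 : l1 ^ 2 - T.trace * l1 + T.det = 0 := by
    have := hr
    simp only [Polynomial.IsRoot, f, Polynomial.eval_add, Polynomial.eval_mul, Polynomial.eval_pow,
      Polynomial.eval_X, Polynomial.eval_C] at this
    linear_combination this
  refine ⟨l1, T.trace - l1, e1, ?_, by ring, by linear_combination e2⟩
  rw [map_sub, h1, e1]
  ring

/-- The data of Ribet's lemma: orthogonal idempotents. -/
theorem exists_proj {T : Matrix (Fin 2) (Fin 2) A} {l1 l2 : A} (hu : IsUnit (l1 - l2))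
    (ht : T.trace = l1 + l2) (hd : T.det = l1 * l2) :
    ∃ (u : A) (P Q : Matrix (Fin 2) (Fin 2) A), u * (l1 - l2) = 1 ∧ P = u • (T - l2 • 1) ∧
      Q = -u • (T - l1 • 1) ∧ P + Q = 1 ∧ P.det = 0 ∧ Q.det = 0 ∧ P * T * Q = 0 ∧ P * Q = 0 := by
  obtain ⟨w, hw⟩ := hu
  have hw' : ((w⁻¹ : Aˣ) : A) * (l1 - l2) = 1 := by rw [← hw, Units.inv_mul]
  rw [Matrix.trace_fin_two] at ht
  rw [Matrix.det_fin_two] at hd
  have hch : (T - l2 • 1) * (T - l1 • 1) = 0 := by
    ext i j
    fin_cases i <;> fin_cases j <;>
      simp [Matrix.mul_apply, Fin.sum_univ_two]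
    · linear_combination (T 0 0) * ht - hd
    · linear_combination (T 0 1) * ht
    · linear_combination (T 1 0) * ht
    · linear_combination (T 1 1) * ht - hd
  refine ⟨(w⁻¹ : Aˣ), _, _, hw', rfl, rfl, ?_, ?_, ?_, ?_, ?_⟩
  · ext i j
    fin_cases i <;> fin_cases j <;> simp
    · linear_combination hw'
    · linear_combination hw'
  · rw [Matrix.det_smul, Matrix.det_fin_two]
    simp
    linear_combination (((w⁻¹ : Aˣ) : A) ^ 2) * (hd - l2 * ht)
  · rw [Matrix.det_smul, Matrix.det_fin_two]
    simp
    linear_combination (((w⁻¹ : Aˣ) : A) ^ 2) * (hd - l1 * ht)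
  · have hcomm : (T - l2 • 1) * T = T * (T - l2 • 1) := by
      rw [sub_mul, mul_sub, smul_mul_assoc, one_mul, mul_smul_comm, mul_one]
    rw [smul_mul_assoc, smul_mul_assoc, mul_smul_comm, hcomm, mul_assoc, hch, mul_zero, smul_zero,
      smul_zero]
  · rw [smul_mul_assoc, mul_smul_comm, hch, smul_zero, smul_zero]

end

end Pool.Agent.Y802.EV
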