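import Mathlib
import Pool.Agent.Y802.EV.Rib

/-!
# Ribet's lemma for two-dimensional representations over local rings, part 2
-/

set_option autoImplicit false
set_option linter.unusedSectionVars false

namespace Pool.Agent.Y802.EV

open IsLocalRing Matrix

section

variable {A : Type} [CommRing A] [IsLocalRing A] [IsNoetherianRing A]

/-- A functional on a nonzero module of matrices, with values in the residue field. -/
theorem exists_functional {B : Type} [AddCommGroup B] [Module A B] [Module.Finite A B]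
    (N : Submodule A B) (hN : N ≠ ⊥) :
    ∃ l : N →ₗ[A] ResidueField A, Function.Surjective l ∧
      ∃ k : ℕ, ∀ x : N, (x : B) ∈ (maximalIdeal A ^ k) • (⊤ : Submodule A B) → l x = 0 := by
  classical
  have hnoeth : IsNoetherian A B := inferInstance
  have hNn : IsNoetherian A N := inferInstance
  have hnt : Nontrivial N := Submodule.nontrivial_iff_ne_bot.2 hN
  have hco : IsCoatomic (Submodule A N) := inferInstance
  obtain ⟨C, hC⟩ := (eq_top_or_exists_le_coatom (⊥ : Submodule A N)).resolve_left bot_ne_top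
  have hs : IsSimpleModule A (N ⧸ C) := isSimpleModule_iff_isCoatom.2 hC.1
  obtain ⟨I, hI, ⟨e⟩⟩ := isSimpleModule_iff_quot_maximal.1 hs
  obtain rfl := IsLocalRing.eq_maximalIdeal hI
  let l : N →ₗ[A] ResidueField A := (e : (N ⧸ C) →ₗ[A] (A ⧸ maximalIdeal A)).comp C.mkQ
  have hl : Function.Surjective l := e.surjective.comp C.mkQ_surjective
  have hkill : ∀ a ∈ maximalIdeal A, ∀ x : N, l (a • x) = 0 := by
    intro a ha x
    rw [map_smul, Algebra.smul_def]
    change residue A a * l x = 0
    rw [(residue_eq_zero_iff a).2 ha, zero_mul]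
  have hkill2 : ∀ x ∈ maximalIdeal A • N, ∃ hx : x ∈ N, l ⟨x, hx⟩ = 0 := by
    intro x hx
    refine Submodule.smul_induction_on hx (fun a ha y hy => ?_) fun y z hy hz => ?_
    · exact ⟨N.smul_mem a hy, hkill a ha ⟨y, hy⟩⟩
    · obtain ⟨hy1, hy2⟩ := hy
      obtain ⟨hz1, hz2⟩ := hz
      refine ⟨N.add_mem hy1 hz1, ?_⟩
      have : (⟨y + z, N.add_mem hy1 hz1⟩ : N) = ⟨y, hy1⟩ + ⟨z, hz1⟩ := rfl
      rw [this, map_add, hy2, hz2, add_zero]
  obtain ⟨k, hk⟩ := Ideal.exists_pow_inf_eq_pow_smul (maximalIdeal A) N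
  refine ⟨l, hl, k + 1, fun x hx => ?_⟩
  have h1 : (x : B) ∈ (maximalIdeal A ^ (k + 1)) • (⊤ : Submodule A B) ⊓ N := ⟨hx, x.2⟩
  rw [hk (k + 1) (by omega)] at h1
  have h2 : k + 1 - k = 1 := by omega
  rw [h2, pow_one] at h1
  have h3 : (x : B) ∈ maximalIdeal A • N :=
    (Submodule.smul_mono (le_refl (maximalIdeal A)) inf_le_right) h1
  obtain ⟨hx', h4⟩ := hkill2 _ h3
  exact h4

end

section

variable {A : Type} [CommRing A] [IsLocalRing A] [IsNoetherianRing A] [TopologicalSpace A]
  {G : Type} [Group G] [TopologicalSpace G] [IsTopologicalGroup G]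

/-- **Ribet's lemma.** -/
theorem ribet [IsAdicComplete (maximalIdeal A) A] (hA : IsAdic (maximalIdeal A))
    (h2 : (2 : ResidueField A) ≠ 0) (H : Subgroup G) [H.Normal] [H.FiniteIndex]
    (hidx : (H.index : ResidueField A) ≠ 0)
    (ρ : G →* GL (Fin 2) A) (hρ : Continuous ρ) (χ₁ χ₂ : G →* (ResidueField A)ˣ)
    (htr : ∀ g, residue A (ρ g : Matrix (Fin 2) (Fin 2) A).trace = χ₁ g + χ₂ g)
    (hH : ∀ h ∈ H, χ₁ h = 1 ∧ χ₂ h = 1) (hne : χ₁ ≠ χ₂) :
    (∃ v : Fin 2 → A, (∃ i, IsUnit (v i)) ∧
      ∀ g, ∃ c : A, (ρ g : Matrix (Fin 2) (Fin 2) A) *ᵥ v = c • v) ∨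
    ∃ β : H → ResidueField A, (∀ h h', β (h * h') = β h + β h') ∧ (∃ h, β h ≠ 0) ∧
      (∀ (σ : G) (h : H), β (MulAut.conjNormal σ h) = χ₁ σ * (χ₂ σ)⁻¹ * β h) ∧
      (∀ h : H, ρ h = 1 → β h = 0) ∧ ∃ U : Subgroup H, IsOpen (U : Set H) ∧ ∀ h ∈ U, β h = 0 := by
  classical
  obtain ⟨g₀, hg₀⟩ : ∃ g, χ₁ g ≠ χ₂ g := by
    by_contra hcon
    push Not at hcon
    exact hne (MonoidHom.ext hcon)
  have hg₀' : (χ₁ g₀ : ResidueField A) ≠ χ₂ g₀ := fun h => hg₀ (Units.ext h)
  set R : G →* Matrix (Fin 2) (Fin 2) A := (Units.coeHom _).comp ρ with hR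
  have hRρ : ∀ g, R g = (ρ g : Matrix (Fin 2) (Fin 2) A) := fun g => rfl
  have htr' : ∀ g, residue A (R g).trace = χ₁ g + χ₂ g := htr
  obtain ⟨l1, l2, r1, r2, ht, hd⟩ := exists_roots h2 (R g₀) _ _ hg₀' (htr' g₀) (by
    rw [← map_mul, htr', map_mul, map_mul]
    push_cast
    rfl)
  have hu : IsUnit (l1 - l2) := by
    rw [← residue_ne_zero_iff_isUnit, map_sub, r1, r2]
    exact sub_ne_zero.2 hg₀'
  obtain ⟨u, P, Q, hu1, hP, hQ, hPQ, hPd, hQd, hPTQ, hPQ0⟩ := exists_proj hu ht hd
  -- the traces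
  have htP : ∀ g, residue A (P * R g).trace = χ₁ g := by
    intro g
    have e1 : (P * R g).trace = u * ((R (g₀ * g)).trace - l2 * (R g).trace) := by
      rw [hP, map_mul, smul_mul_assoc, sub_mul, smul_mul_assoc, one_mul, Matrix.trace_smul,
        Matrix.trace_sub, Matrix.trace_smul, smul_eq_mul, smul_eq_mul]
    have e2 : residue A u * ((χ₁ g₀ : ResidueField A) - χ₂ g₀) = 1 := by
      rw [← r1, ← r2, ← map_sub, ← map_mul, hu1, map_one]
    rw [e1, map_mul, map_sub, htr', map_mul (residue A) l2, htr', r2, map_mul, map_mul]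
    push_cast
    linear_combination (χ₁ g : ResidueField A) * e2
  have htQ : ∀ g, residue A (Q * R g).trace = χ₂ g := by
    intro g
    have e1 : P * R g + Q * R g = R g := by rw [← add_mul, hPQ, one_mul]
    have e2 := congrArg (fun M => residue A (Matrix.trace M)) e1
    simp only [Matrix.trace_add, map_add, htP, htr'] at e2
    linear_combination e2
  set B : Submodule A (Matrix (Fin 2) (Fin 2) A) :=
    Submodule.span A (Set.range fun g => P * R g * Q) with hB
  by_cases hB0 : B = ⊥
  · -- invariant line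
    left
    have h0 : ∀ g, P * R g * Q = 0 := by
      intro g
      have : P * R g * Q ∈ B := Submodule.subset_span ⟨g, rfl⟩
      rwa [hB0, Submodule.mem_bot] at this
    have h1 : ∀ g, R g * Q = (Q * R g).trace • Q := by
      intro g
      have e1 : R g * Q = P * R g * Q + Q * R g * Q := by
        rw [← add_mul, ← add_mul, hPQ, one_mul]
      rw [e1, h0, zero_add, mul_mul_self_of_det Q _ hQd]
    have hQtr : residue A Q.trace = 1 := by
      have := htQ 1
      rwa [map_one, map_one, mul_one] at this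
    obtain ⟨i, hi⟩ : ∃ i, IsUnit (Q i i) := by
      by_contra hcon
      push Not at hcon
      have e1 : residue A (Q 0 0) = 0 := (residue_eq_zero_iff _).2 (hcon 0)
      have e2 : residue A (Q 1 1) = 0 := (residue_eq_zero_iff _).2 (hcon 1)
      rw [Matrix.trace_fin_two, map_add, e1, e2, add_zero] at hQtr
      exact zero_ne_one hQtr
    refine ⟨fun j => Q j i, ⟨i, hi⟩, fun g => ⟨(Q * R g).trace, ?_⟩⟩
    have e1 := h1 g
    funext j
    have e2 := congrFun (congrFun e1 j) i
    rw [Matrix.mul_apply] at e2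
    exact e2
  · right
    obtain ⟨l, hl, k, hk⟩ := exists_functional B hB0
    have hmem : ∀ g, P * R g * Q ∈ B := fun g => Submodule.subset_span ⟨g, rfl⟩
    let β : G → ResidueField A := fun g => l ⟨P * R g * Q, hmem g⟩
    -- the cocycle relation
    have hco : ∀ g h, β (g * h) = χ₁ g * β h + χ₂ h * β g := by
      intro g h
      have e1 : P * R (g * h) * Q = (P * R g).trace • (P * R h * Q) +
          (Q * R h).trace • (P * R g * Q) := by
        calc P * R (g * h) * Q = P * R g * (P + Q) * R h * Q := by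
              rw [hPQ, map_mul, mul_one]
              simp only [mul_assoc]
          _ = (P * R g * P) * (R h * Q) + (P * R g) * (Q * R h * Q) := by noncomm_ring
          _ = _ := by
            rw [mul_mul_self_of_det P _ hPd, mul_mul_self_of_det Q _ hQd, smul_mul_assoc,
              mul_smul_comm, mul_assoc P (R h)]
      have e2 : (⟨P * R (g * h) * Q, hmem (g * h)⟩ : B) =
          (P * R g).trace • ⟨P * R h * Q, hmem h⟩ + (Q * R h).trace • ⟨P * R g * Q, hmem g⟩ :=
        Subtype.ext e1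
      change l ⟨P * R (g * h) * Q, hmem (g * h)⟩ = _
      rw [e2, map_add, map_smul, map_smul, Algebra.smul_def, Algebra.smul_def]
      change residue A _ * β h + residue A _ * β g = _
      rw [htP, htQ]
    have hβg₀ : β g₀ = 0 := by
      have e1 : (⟨P * R g₀ * Q, hmem g₀⟩ : B) = 0 := Subtype.ext hPTQ
      change l ⟨P * R g₀ * Q, hmem g₀⟩ = 0
      rw [e1, map_zero]
    have hβ1 : ∀ g, ρ g = 1 → β g = 0 := by
      intro g hg
      have e0 : R g = 1 := by rw [hRρ, hg]; rfl
      have e1 : (⟨P * R g * Q, hmem g⟩ : B) = 0 := Subtype.ext (by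
        change P * R g * Q = 0
        rw [e0, mul_one, hPQ0])
      change l ⟨P * R g * Q, hmem g⟩ = 0
      rw [e1, map_zero]
    have hHβ : ∀ h h' : H, β (h * h') = β h + β h' := by
      intro h h'
      rw [hco, (hH h h.2).1, (hH h' h'.2).2, Units.val_one, one_mul, one_mul, add_comm]
    refine ⟨fun h => β h, hHβ, ?_, ?_, fun h hh => hβ1 h hh, ?_⟩
    · -- nontriviality
      by_contra hcon
      push Not at hcon
      let b : G → ResidueField A := fun g => β g * ((χ₂ g)⁻¹ : (ResidueField A)ˣ)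
      have hinv : ∀ g, (χ₂ g : ResidueField A) * ((χ₂ g)⁻¹ : (ResidueField A)ˣ) = 1 := fun g =>
        Units.mul_inv _
      have hb : ∀ g h, b (g * h) = (χ₁ g * ((χ₂ g)⁻¹ : (ResidueField A)ˣ)) * b h + b g := by
        intro g h
        change β (g * h) * ((χ₂ (g * h))⁻¹ : (ResidueField A)ˣ) = _
        rw [hco, map_mul, mul_inv, Units.val_mul]
        change _ = (χ₁ g * ((χ₂ g)⁻¹ : (ResidueField A)ˣ)) *
          (β h * ((χ₂ h)⁻¹ : (ResidueField A)ˣ)) + β g * ((χ₂ g)⁻¹ : (ResidueField A)ˣ)
        linear_combination (β g * ((χ₂ g)⁻¹ : (ResidueField A)ˣ)) * hinv h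
      have hbH : ∀ h ∈ H, b h = 0 := by
        intro h hh
        change β h * _ = 0
        rw [hcon ⟨h, hh⟩, zero_mul]
      have hbr : ∀ g, ∀ h ∈ H, b (g * h) = b g := by
        intro g h hh
        rw [hb, hbH h hh, mul_zero, zero_add]
      let bq : G ⧸ H → ResidueField A := fun q => b q.out
      have hbq : ∀ g : G, bq (QuotientGroup.mk g) = b g := by
        intro g
        obtain ⟨h, hh⟩ := QuotientGroup.mk_out_eq_mul H g
        change b _ = _
        rw [hh, hbr g h h.2]
      have hfin : Fintype (G ⧸ H) := Fintype.ofFinite _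
      have hsum : ∀ g : G, ∑ q : G ⧸ H, bq q =
          (χ₁ g * ((χ₂ g)⁻¹ : (ResidueField A)ˣ)) * ∑ q : G ⧸ H, bq q +
            (H.index : ResidueField A) * b g := by
        intro g
        calc ∑ q : G ⧸ H, bq q = ∑ q : G ⧸ H, bq (g • q) :=
              (Equiv.sum_comp (MulAction.toPerm g) bq).symm
          _ = ∑ q : G ⧸ H, ((χ₁ g * ((χ₂ g)⁻¹ : (ResidueField A)ˣ)) * bq q + b g) := by
              refine Finset.sum_congr rfl fun q _ => ?_
              obtain ⟨x, rfl⟩ := QuotientGroup.mk_surjective q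
              have : g • (QuotientGroup.mk x : G ⧸ H) = QuotientGroup.mk (g * x) := rfl
              rw [this, hbq, hbq, hb]
          _ = _ := by
              rw [Finset.sum_add_distrib, ← Finset.mul_sum, Finset.sum_const, Finset.card_univ,
                nsmul_eq_mul, Subgroup.index_eq_card, Nat.card_eq_fintype_card]
      have hb0 : b g₀ = 0 := by
        change β g₀ * _ = 0
        rw [hβg₀, zero_mul]
      have hS : ∑ q : G ⧸ H, bq q = 0 := by
        have e1 := hsum g₀
        rw [hb0, mul_zero, add_zero] at e1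
        have e2 : ((χ₁ g₀ : ResidueField A) - χ₂ g₀) * ∑ q : G ⧸ H, bq q = 0 := by
          have e3 := hinv g₀
          linear_combination (-(χ₂ g₀ : ResidueField A)) * e1 -
            (χ₁ g₀ * ∑ q : G ⧸ H, bq q : ResidueField A) * e3
        exact (mul_eq_zero.1 e2).resolve_left (sub_ne_zero.2 hg₀')
      have hball : ∀ g, b g = 0 := by
        intro g
        have e1 := hsum g
        rw [hS, mul_zero, zero_add] at e1
        exact (mul_eq_zero.1 e1.symm).resolve_left hidx
      have hβall : ∀ g, β g = 0 := by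
        intro g
        have e1 : β g * ((χ₂ g)⁻¹ : (ResidueField A)ˣ) = 0 := hball g
        exact (mul_eq_zero.1 e1).resolve_right (Units.ne_zero _)
      have hl0 : ∀ x (hx : x ∈ B), l ⟨x, hx⟩ = 0 := by
        intro x hx
        refine Submodule.span_induction (p := fun x hx => l ⟨x, hx⟩ = 0) ?_ ?_ ?_ ?_ hx
        · rintro _ ⟨g, rfl⟩
          exact hβall g
        · exact map_zero l
        · intro x y hx hy h1 h2
          have : (⟨x + y, B.add_mem hx hy⟩ : B) = ⟨x, hx⟩ + ⟨y, hy⟩ := rfl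
          rw [this, map_add, h1, h2, add_zero]
        · intro a x hx h1
          have : (⟨a • x, B.smul_mem a hx⟩ : B) = a • ⟨x, hx⟩ := rfl
          rw [this, map_smul, h1, smul_zero]
      obtain ⟨y, hy⟩ := hl 1
      rw [hl0 y.1 y.2] at hy
      exact zero_ne_one hy
    · -- conjugation
      intro σ h
      have e1 := hco (MulAut.conjNormal σ h : H) σ
      have e2 : ((MulAut.conjNormal σ h : H) : G) * σ = σ * h := by
        rw [MulAut.conjNormal_apply, inv_mul_cancel_right]
      rw [e2, hco, (hH h h.2).2, (hH _ (MulAut.conjNormal σ h : H).2).1, Units.val_one,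
        one_mul] at e1
      have e3 : (χ₂ σ : ResidueField A) * ((χ₂ σ)⁻¹ : (ResidueField A)ˣ) = 1 := Units.mul_inv _
      have e4 : (χ₁ σ : ResidueField A) * β h = χ₂ σ * β (MulAut.conjNormal σ h : H) := by
        linear_combination e1
      calc β (MulAut.conjNormal σ h : H) =
          (χ₂ σ * ((χ₂ σ)⁻¹ : (ResidueField A)ˣ)) * β (MulAut.conjNormal σ h : H) := by
            rw [e3, one_mul]
        _ = ((χ₂ σ)⁻¹ : (ResidueField A)ˣ) * (χ₂ σ * β (MulAut.conjNormal σ h : H)) := by ring
        _ = _ := by rw [← e4]; push_cast; ring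
    · -- open kernel
      obtain ⟨U, hU, hU1⟩ := Pool.Agent.Y802.QV.exists_open (H := H) hA ρ hρ k
      refine ⟨U, hU, fun h hh => ?_⟩
      apply hk
      change P * R h * Q ∈ _
      have e1 : P * R h * Q = P * (R h - 1) * Q := by
        rw [mul_sub, sub_mul, mul_one, hPQ0, sub_zero]
      rw [e1]
      have e2 := hU1 h hh
      have e3 : ∀ X ∈ (maximalIdeal A ^ k) • (⊤ : Submodule A (Matrix (Fin 2) (Fin 2) A)),
          P * X * Q ∈ (maximalIdeal A ^ k) • (⊤ : Submodule A (Matrix (Fin 2) (Fin 2) A)) := by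
        intro X hX
        refine Submodule.smul_induction_on hX (fun a ha Y _ => ?_) fun Y Z hY hZ => ?_
        · rw [mul_smul_comm, smul_mul_assoc]
          exact Submodule.smul_mem_smul ha trivial
        · rw [mul_add, add_mul]
          exact Submodule.add_mem _ hY hZ
      exact e3 _ e2

end

end Pool.Agent.Y802.EV
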