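import Mathlib
import Pool.Agent.Y802.EV.Main
import Pool.Agent.Y802.EV.Rib2

/-!
# Even residually reducible representations
-/

set_option autoImplicit false
set_option linter.unusedSectionVars false

namespace Pool.Agent.Y802.EV

open NumberField IsDedekindDomain IntermediateField

section

variable {F : Type} [Field F] [NumberField F] {K : IntermediateField F (AlgebraicClosure F)}
  [NumberField K] [IsGalois F K] {p : ℕ} [hp : Fact p.Prime]

theorem exists_complex (F : Type) [Field F] [NumberField F] :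
    Nonempty (AlgebraicClosure F →+* ℂ) := by
  let φ : F →+* ℂ := Classical.choice inferInstance
  let _ : Algebra F ℂ := φ.toAlgebra
  let ψ : AlgebraicClosure F →ₐ[F] ℂ := IsAlgClosed.lift
  exact ⟨ψ⟩

/-- `σ` acts on the `p`-th roots of unity as the `b`-th power. -/
def CycPow (p : ℕ) (σ : Gal(AlgebraicClosure F/F)) (b : ℕ) : Prop :=
  ∀ z : AlgebraicClosure F, z ^ p = 1 → σ z = z ^ b

theorem exists_prim : ∃ ζ : AlgebraicClosure F, IsPrimitiveRoot ζ p := by
  have : NeZero p := ⟨hp.out.ne_zero⟩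
  have : NeZero (p : AlgebraicClosure F) := ⟨by exact_mod_cast hp.out.ne_zero⟩
  exact HasEnoughRootsOfUnity.exists_primitiveRoot (AlgebraicClosure F) p

theorem exists_cycPow (σ : Gal(AlgebraicClosure F/F)) : ∃ b, CycPow p σ b := by
  obtain ⟨ζ, hζ⟩ := exists_prim (F := F) (p := p)
  exact exists_cyc hp.out.ne_zero hζ σ

theorem CycPow.cast_eq {k : Type} [Field k] [CharP k p] {σ : Gal(AlgebraicClosure F/F)} {b b' : ℕ}
    (h : CycPow p σ b) (h' : CycPow p σ b') : (b : k) = b' := by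
  obtain ⟨ζ, hζ⟩ := exists_prim (F := F) (p := p)
  have h1 : ζ ^ b = ζ ^ b' := by rw [← h ζ hζ.pow_eq_one, h' ζ hζ.pow_eq_one]
  have h2 : b ≡ b' [MOD p] := by
    rw [hζ.eq_orderOf]
    exact (isOfFinOrder_iff_pow_eq_one.2
      ⟨p, hp.out.pos, hζ.pow_eq_one⟩).pow_eq_pow_iff_modEq.1 h1
  exact (CharP.natCast_eq_natCast k p).2 h2

theorem CycPow.cast_ne_zero {k : Type} [Field k] [CharP k p] {σ : Gal(AlgebraicClosure F/F)} {b : ℕ}
    (h : CycPow p σ b) : (b : k) ≠ 0 := by
  intro h0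
  obtain ⟨ζ, hζ⟩ := exists_prim (F := F) (p := p)
  have h1 : p ∣ b := (CharP.cast_eq_zero_iff k p b).1 h0
  have h2 : σ ζ = 1 := by
    rw [h ζ hζ.pow_eq_one]
    exact (hζ.pow_eq_one_iff_dvd b).2 h1
  have h3 : ζ = 1 := by
    have := congrArg σ.symm h2
    simpa using this
  rw [h3] at hζ
  have := hζ.unique (IsPrimitiveRoot.one)
  exact hp.out.one_lt.ne' this

theorem CycPow.mul {σ τ : Gal(AlgebraicClosure F/F)} {b b' : ℕ} (h : CycPow p σ b)
    (h' : CycPow p τ b') : CycPow p (σ * τ) (b * b') := by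
  intro z hz
  have h1 : (z ^ b') ^ p = 1 := by rw [← pow_mul, mul_comm, pow_mul, hz, one_pow]
  change σ (τ z) = _
  rw [h' z hz, h _ h1, ← pow_mul, mul_comm]

/-- `σ` maps the ideal `Q` to itself. -/
def Dec (Q : Ideal (𝓞 (AlgebraicClosure F))) (σ : Gal(AlgebraicClosure F/F)) : Prop :=
  ∀ x : 𝓞 (AlgebraicClosure F), σ • x ∈ Q ↔ x ∈ Q

theorem Dec.fixes {Q : Ideal (𝓞 (AlgebraicClosure F))} {σ : Gal(AlgebraicClosure F/F)}
    (h : Dec Q σ) {v : HeightOneSpectrum (𝓞 K)} (hv : Q.under (𝓞 K) = v.asIdeal) :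
    Fixes v σ := by
  intro x
  rw [← hv]
  change algebraMap (𝓞 K) (𝓞 (AlgebraicClosure F)) _ ∈ Q ↔
    algebraMap (𝓞 K) (𝓞 (AlgebraicClosure F)) x ∈ Q
  have e1 : algebraMap (𝓞 K) (𝓞 (AlgebraicClosure F)) (RingOfIntegers.mapRingEquiv (au K σ) x) =
      σ • algebraMap (𝓞 K) (𝓞 (AlgebraicClosure F)) x := by
    apply RingOfIntegers.ext
    change ((au K σ (x : K) : K) : AlgebraicClosure F) = σ ((x : K) : AlgebraicClosure F)
    exact au_apply σ _
  rw [e1]
  exact h _

theorem exists_over (v : HeightOneSpectrum (𝓞 K)) : ∃ Q : Ideal (𝓞 (AlgebraicClosure F)),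
    Q.IsMaximal ∧ Q.under (𝓞 K) = v.asIdeal := by
  have hv : v.asIdeal.IsMaximal := v.isMaximal
  obtain ⟨Q, hQm, hQP⟩ :=
    Ideal.exists_maximal_ideal_liesOver_of_isIntegral (S := 𝓞 (AlgebraicClosure F)) v.asIdeal
  exact ⟨Q, hQm, hQP.over.symm⟩

/-- The field `k` with the action of `σ` through `ω ψ⁻¹` does not map to the class group. -/
def NoPart (K : IntermediateField F (AlgebraicClosure F)) [NumberField K] [IsGalois F K] (p : ℕ)
    (k : Type) [Field k] (ψ : Gal(AlgebraicClosure F/F) →* kˣ) : Prop :=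
  ∀ I : k → Ideal (𝓞 K), (∀ x, I x ≠ ⊥) → (∀ x y, SameClass (I (x + y)) (I x * I y)) →
    (∀ σ b, CycPow p σ b → ∀ x, SameClass (I (b * (ψ σ : k)⁻¹ * x)) (auI K σ (I x))) →
    ∀ x, (I x).IsPrincipal

theorem no_beta (hp2 : p ≠ 2) (hK : ∀ z : AlgebraicClosure F, z ^ p = 1 → z ∈ K)
    (c : Gal(AlgebraicClosure F/F))
    (hc : ∀ φ : AlgebraicClosure F →+* ℂ, ∀ x ∈ K, φ (c x) = (starRingEnd ℂ) (φ x))
    (k : Type) [Field k] [Finite k] [CharP k p] (ψ : Gal(AlgebraicClosure F/F) →* kˣ)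
    (hψ : ψ ≠ 1) (hψc : ψ c = 1) (hcls : NoPart K p k ψ) (β : K.fixingSubgroup → k)
    (hadd : ∀ h h', β (h * h') = β h + β h') (hne : ∃ h, β h ≠ 0)
    (heq : ∀ (σ : Gal(AlgebraicClosure F/F)) (h : K.fixingSubgroup),
      β (MulAut.conjNormal σ h) = ψ σ * β h)
    (hopen : ∃ U : Subgroup K.fixingSubgroup, IsOpen (U : Set K.fixingSubgroup) ∧
      ∀ h ∈ U, β h = 0)
    (hloc : ∀ Q : Ideal (𝓞 (AlgebraicClosure F)), Q.IsMaximal →
      (∀ τ : K.fixingSubgroup, (∀ x : 𝓞 (AlgebraicClosure F),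
        (τ : Gal(AlgebraicClosure F/F)) • x - x ∈ Q) → β τ = 0) ∨
      ∃ σ b, Dec Q σ ∧ CycPow p σ b ∧ (ψ σ : k) ≠ b) : False := by
  classical
  let _ : Algebra (ZMod p) k := ZMod.algebra k p
  obtain ⟨l, hl⟩ : ∃ l : k →+ ZMod p, l 1 ≠ 0 := by
    by_contra hcon
    push Not at hcon
    have : (1 : k) = 0 := (Module.forall_dual_apply_eq_zero_iff (ZMod p) (1 : k)).1 fun φ =>
      hcon φ.toAddMonoidHom
    exact one_ne_zero this
  have hlall : ∀ y : k, (∀ x, l (x * y) = 0) → y = 0 := by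
    intro y hy
    by_contra hy0
    apply hl
    have := hy y⁻¹
    rwa [inv_mul_cancel₀ hy0] at this
  choose cy hcy using fun σ : Gal(AlgebraicClosure F/F) => exists_cycPow (p := p) σ
  let act : Gal(AlgebraicClosure F/F) → k → k := fun σ x => cy σ * (ψ σ : k)⁻¹ * x
  let f : k → (K.fixingSubgroup →* Multiplicative (ZMod p)) := fun x =>
    { toFun := fun h => Multiplicative.ofAdd (l (x * β h))
      map_one' := by
        have h1 := hadd 1 1
        rw [mul_one] at h1
        have h2 : β 1 = 0 := by linear_combination -h1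
        rw [h2, mul_zero, map_zero]
        rfl
      map_mul' := fun a b => by
        rw [hadd, mul_add, map_add]
        rfl }
  have hf : ∀ x h, Multiplicative.toAdd (f x h) = l (x * β h) := fun x h => rfl
  have hact : ∀ σ b, CycPow p σ b → ∀ x, act σ x = b * (ψ σ : k)⁻¹ * x := by
    intro σ b hb x
    change cy σ * (ψ σ : k)⁻¹ * x = _
    rw [(hcy σ).cast_eq (k := k) hb]
  have hlb : ∀ (b : ℕ) (y : k), l (b * y) = b * l y := by
    intro b y
    rw [← nsmul_eq_mul, map_nsmul, nsmul_eq_mul]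
  obtain ⟨σ, hσ⟩ : ∃ σ, ψ σ ≠ 1 := by
    by_contra hcon
    push Not at hcon
    exact hψ (MonoidHom.ext hcon)
  have hσ' : (ψ σ : k) ≠ 1 := fun h => hσ (Units.ext h)
  have key := reflection hp2 hK k act f
    (fun x y => by
      ext h
      change l ((x + y) * β h) = l (x * β h) + l (y * β h)
      rw [add_mul, map_add])
    (fun x => by
      obtain ⟨U, hU, hU1⟩ := hopen
      refine Subgroup.isOpen_mono (H₁ := U) (fun h hh => ?_) hU
      rw [MonoidHom.mem_ker]
      change l (x * β h) = 0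
      rw [hU1 h hh, mul_zero, map_zero])
    (fun σ b hb x => by
      ext h
      change l (act σ x * β h) = Multiplicative.toAdd
        ((f x (MulAut.conjNormal σ⁻¹ h)) ^ b)
      rw [toAdd_pow, hf, nsmul_eq_mul, heq, hact σ b hb, ← hlb, map_inv]
      congr 1
      push_cast
      ring)
    (fun v => by
      obtain ⟨Q, hQ, hQv⟩ := exists_over (K := K) v
      rcases hloc Q hQ with h1 | ⟨σ, b, hσ, hb, hne⟩
      · refine Or.inl ⟨Q, hQ, hQv, fun τ hτ x => ?_⟩
        change l (x * β τ) = 0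
        rw [h1 τ hτ, mul_zero, map_zero]
      · right
        intro θ hθ
        ext x
        have h2 : ∀ y, θ ((b * (ψ σ : k)⁻¹ - 1) * y) = 0 := by
          intro y
          have h3 := hθ σ (hσ.fixes hQv) y
          rw [hact σ b hb] at h3
          rw [sub_mul, one_mul, map_sub, h3, sub_self]
        have h4 : (b * (ψ σ : k)⁻¹ - 1 : k) ≠ 0 := by
          intro h5
          apply hne
          have h6 : (ψ σ : k) ≠ 0 := (ψ σ).ne_zero
          field_simp at h5
          linear_combination -h5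
        have h5 := h2 ((b * (ψ σ : k)⁻¹ - 1)⁻¹ * x)
        rw [← mul_assoc, mul_inv_cancel₀ h4, one_mul] at h5
        exact h5)
    (fun I h1 h2 h3 => hcls I h1 h2 fun σ b hb x => by
      rw [← hact σ b hb]
      exact h3 σ x)
    c hc (fun x => by
      have hcc : CycPow p c (p - 1) := by
        intro z hz
        have hz0 : z ≠ 0 := by
          rintro rfl
          rw [zero_pow hp.out.ne_zero] at hz
          exact zero_ne_one hz
        have h1 : z * z ^ (p - 1) = 1 := by
          rw [← pow_succ', Nat.sub_add_cancel hp.out.one_le, hz]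
        let φ : AlgebraicClosure F →+* ℂ := Classical.choice (exists_complex F)
        apply φ.injective
        rw [hc φ z (hK z hz)]
        have h2 : ‖φ z‖ = 1 := by
          apply Complex.norm_eq_one_of_pow_eq_one (n := p) _ hp.out.ne_zero
          rw [← map_pow, hz, map_one]
        have h3 : (starRingEnd ℂ) (φ z) * φ z = 1 := by
          rw [mul_comm, Complex.mul_conj, Complex.normSq_eq_norm_sq, h2]
          simp
        have h4 : φ (z ^ (p - 1)) * φ z = 1 := by
          rw [← map_mul, mul_comm, h1, map_one]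
        have h5 : φ z ≠ 0 := by simpa using hz0
        exact mul_right_cancel₀ h5 (h3.trans h4.symm)
      rw [hact c _ hcc, hψc, Units.val_one, inv_one, mul_one, Nat.cast_sub hp.out.one_le,
        CharP.cast_eq_zero]
      push_cast
      ring)
    σ (cy σ) (hcy σ)
  obtain ⟨h, hh⟩ := hne
  have h1 : ((ψ σ : k)⁻¹ - 1) * (cy σ * β h) = 0 := by
    apply hlall
    intro x
    have h2 := congrArg Multiplicative.toAdd (DFunLike.congr_fun (key x) h)
    rw [MonoidHom.pow_apply, toAdd_pow, hf, hf, nsmul_eq_mul, ← hlb] at h2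
    have h3 : x * (((ψ σ : k)⁻¹ - 1) * (cy σ * β h)) = act σ x * β h - cy σ * (x * β h) := by
      change _ = cy σ * (ψ σ : k)⁻¹ * x * β h - cy σ * (x * β h)
      ring
    rw [h3, map_sub, h2, sub_self]
  have h2 : ((ψ σ : k)⁻¹ - 1) ≠ 0 := by
    intro h3
    apply hσ'
    have h4 : (ψ σ : k) ≠ 0 := (ψ σ).ne_zero
    field_simp at h3
    linear_combination -h3
  exact mul_ne_zero h2 (mul_ne_zero ((hcy σ).cast_ne_zero) hh) h1

end

end Pool.Agent.Y802.EV
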