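import Mathlib
import Pool.Agent.Y802.EV.Even

/-!
# Class numbers prime to `p`; degrees
-/

set_option autoImplicit false
set_option linter.unusedSectionVars false

namespace Pool.Agent.Y802.EV

open NumberField IsDedekindDomain IntermediateField IsLocalRing

section

variable {K : Type} [Field K] [NumberField K]

/-- The class of a nonzero ideal. -/
noncomputable def cl (I : Ideal (𝓞 K)) (hI : I ≠ ⊥) : ClassGroup (𝓞 K) :=
  ClassGroup.mk0 ⟨I, mem_nonZeroDivisors_iff_ne_zero.2 hI⟩

theorem sameClass_iff {I J : Ideal (𝓞 K)} (hI : I ≠ ⊥) (hJ : J ≠ ⊥) :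
    SameClass I J ↔ cl I hI = cl J hJ := by
  unfold cl
  rw [ClassGroup.mk0_eq_mk0_iff]
  constructor
  · rintro ⟨x, y, hx, hy, h⟩
    exact ⟨x, y, hx, hy, h⟩
  · rintro ⟨x, y, hx, hy, h⟩
    exact ⟨x, y, hx, hy, h⟩

theorem cl_mul {I J : Ideal (𝓞 K)} (hI : I ≠ ⊥) (hJ : J ≠ ⊥) :
    cl (I * J) (mul_ne_zero hI hJ) = cl I hI * cl J hJ := by
  unfold cl
  rw [← map_mul]
  rfl

theorem principal_of_cl {I : Ideal (𝓞 K)} (hI : I ≠ ⊥) (h : cl I hI = 1) : I.IsPrincipal :=
  (ClassGroup.mk0_eq_one_iff _).1 h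

/-- A homomorphism from a group of exponent `p` to a class group of order prime to `p`. -/
theorem principal_of_prime (p : ℕ) [hp : Fact p.Prime] (hh : ¬ p ∣ classNumber K) (M : Type)
    [AddCommGroup M] (hM : ∀ x : M, p • x = 0) (I : M → Ideal (𝓞 K)) (h0 : ∀ x, I x ≠ ⊥)
    (hadd : ∀ x y, SameClass (I (x + y)) (I x * I y)) (x : M) : (I x).IsPrincipal := by
  let f : M → ClassGroup (𝓞 K) := fun x => cl (I x) (h0 x)
  have hf : ∀ x y, f (x + y) = f x * f y := by
    intro x y
    have h1 := (sameClass_iff (h0 (x + y)) (mul_ne_zero (h0 x) (h0 y))).1 (hadd x y)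
    exact h1.trans (cl_mul _ _)
  have hf0 : f 0 = 1 := by
    have h1 := hf 0 0
    rw [add_zero] at h1
    exact mul_eq_left.1 h1.symm
  have hfn : ∀ (n : ℕ) x, f (n • x) = f x ^ n := by
    intro n x
    induction n with
    | zero => rw [zero_smul, hf0, pow_zero]
    | succ n ih => rw [succ_nsmul, hf, ih, pow_succ]
  apply principal_of_cl (h0 x)
  change f x = 1
  have h1 : f x ^ p = 1 := by rw [← hfn, hM, hf0]
  have h2 : orderOf (f x) ∣ p := orderOf_dvd_of_pow_eq_one h1
  have h3 : orderOf (f x) ∣ classNumber K := orderOf_dvd_card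
  rcases (Nat.dvd_prime hp.out).1 h2 with h4 | h4
  · exact orderOf_eq_one_iff.1 h4
  · rw [h4] at h3
    exact absurd h3 hh

end

section

variable {F : Type} [Field F] [NumberField F] {K : IntermediateField F (AlgebraicClosure F)}
  [NumberField K] [IsGalois F K] {p : ℕ} [hp : Fact p.Prime]

theorem noPart_of_prime (hh : ¬ p ∣ classNumber K) (k : Type) [Field k] [CharP k p]
    (ψ : Gal(AlgebraicClosure F/F) →* kˣ) : NoPart K p k ψ := by
  intro I h0 hadd _ x
  refine principal_of_prime p hh k (fun y => ?_) I h0 hadd x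
  rw [nsmul_eq_mul, CharP.cast_eq_zero, zero_mul]

theorem finite_gal : Finite Gal(K/F) := by
  have : Module.Finite F K := Module.Finite.of_restrictScalars_finite ℚ F K
  infer_instance

theorem index_fix : K.fixingSubgroup.index = Module.finrank F K := by
  have : Module.Finite F K := Module.Finite.of_restrictScalars_finite ℚ F K
  rw [← IntermediateField.restrictNormalHom_ker, Subgroup.index_ker,
    MonoidHom.range_eq_top.2 (AlgEquiv.restrictNormalHom_surjective (AlgebraicClosure F)),
    Subgroup.card_top, IsGalois.card_aut_eq_finrank]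

theorem finiteIndex_fix : K.fixingSubgroup.FiniteIndex := by
  have : Module.Finite F K := Module.Finite.of_restrictScalars_finite ℚ F K
  refine ⟨?_⟩
  rw [index_fix]
  exact Module.finrank_pos.ne'

theorem charP_residue {A : Type} [CommRing A] [IsLocalRing A] (hpA : (p : A) ∈ maximalIdeal A) :
    CharP (ResidueField A) p := by
  have h1 : ((p : ℕ) : ResidueField A) = 0 := by
    rw [← map_natCast (residue A)]
    exact (residue_eq_zero_iff _).2 hpA
  exact (CharP.charP_iff_prime_eq_zero hp.out).2 h1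

end

end Pool.Agent.Y802.EV
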