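import Mathlib
import Pool.Agent.Y802.EV.Cls

/-!
# Matrices with entries in powers of the maximal ideal; functionals
-/

set_option autoImplicit false
set_option linter.unusedSectionVars false

namespace Pool.Agent.Y802.EV

open IsLocalRing Matrix

section

variable {A : Type} [CommRing A] {n : ℕ}

/-- The entries of `z` are in `J`. -/
def Ent (J : Ideal A) (z : Matrix (Fin n) (Fin n) A) : Prop := ∀ r s, z r s ∈ J

theorem Ent.add {J : Ideal A} {z w : Matrix (Fin n) (Fin n) A} (hz : Ent J z) (hw : Ent J w) :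
    Ent J (z + w) := fun r s => J.add_mem (hz r s) (hw r s)

theorem Ent.smul {J : Ideal A} (a : A) {z : Matrix (Fin n) (Fin n) A} (hz : Ent J z) :
    Ent J (a • z) := fun r s => J.mul_mem_left a (hz r s)

theorem Ent.mul {J J' : Ideal A} {z w : Matrix (Fin n) (Fin n) A} (hz : Ent J z) (hw : Ent J' w) :
    Ent (J * J') (z * w) := by
  intro r s
  rw [Matrix.mul_apply]
  exact Ideal.sum_mem _ fun j _ => Ideal.mul_mem_mul (hz r j) (hw j s)

theorem Ent.mul_left {J : Ideal A} (P : Matrix (Fin n) (Fin n) A)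
    {z : Matrix (Fin n) (Fin n) A} (hz : Ent J z) : Ent J (P * z) := by
  intro r s
  rw [Matrix.mul_apply]
  exact Ideal.sum_mem _ fun j _ => J.mul_mem_left _ (hz j s)

theorem Ent.mul_right {J : Ideal A} (P : Matrix (Fin n) (Fin n) A)
    {z : Matrix (Fin n) (Fin n) A} (hz : Ent J z) : Ent J (z * P) := by
  intro r s
  rw [Matrix.mul_apply]
  exact Ideal.sum_mem _ fun j _ => J.mul_mem_right _ (hz r j)

theorem Ent.mono {J J' : Ideal A} (h : J ≤ J') {z : Matrix (Fin n) (Fin n) A} (hz : Ent J z) :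
    Ent J' z := fun r s => h (hz r s)

end

section

variable {A : Type} [CommRing A] [IsLocalRing A] {n : ℕ}

/-- `θ` is a functional on the `i`-th graded piece. -/
structure Fun (i : ℕ) (θ : A → ResidueField A) : Prop where
  add : ∀ x ∈ maximalIdeal A ^ i, ∀ y ∈ maximalIdeal A ^ i, θ (x + y) = θ x + θ y
  mul : ∀ a, ∀ x ∈ maximalIdeal A ^ i, θ (a * x) = residue A a * θ x
  zero : ∀ x ∈ maximalIdeal A ^ (i + 1), θ x = 0

theorem exists_dual {N : Type} [AddCommGroup N] [Module A N] {x : N}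
    (hx : x ∉ (maximalIdeal A • ⊤ : Submodule A N)) :
    ∃ φ : N → ResidueField A, φ x ≠ 0 ∧ (∀ y z, φ (y + z) = φ y + φ z) ∧
      (∀ (a : A) y, φ (a • y) = residue A a * φ y) ∧
      ∀ y ∈ (maximalIdeal A • ⊤ : Submodule A N), φ y = 0 := by
  let _ : Field (A ⧸ maximalIdeal A) := Ideal.Quotient.field (maximalIdeal A)
  have hv : (Submodule.Quotient.mk x : N ⧸ (maximalIdeal A • ⊤ : Submodule A N)) ≠ 0 := by
    intro h
    rw [Submodule.Quotient.mk_eq_zero] at h
    exact hx h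
  obtain ⟨φ, hφ⟩ : ∃ φ : Module.Dual (A ⧸ maximalIdeal A)
      (N ⧸ (maximalIdeal A • ⊤ : Submodule A N)), φ (Submodule.Quotient.mk x) ≠ 0 := by
    by_contra hcon
    push Not at hcon
    exact hv ((Module.forall_dual_apply_eq_zero_iff (A ⧸ maximalIdeal A) _).1 hcon)
  refine ⟨fun y => φ (Submodule.Quotient.mk y), hφ, fun y z => ?_, fun a y => ?_, fun y hy => ?_⟩
  · change φ (Submodule.Quotient.mk (y + z)) = _
    rw [Submodule.Quotient.mk_add, map_add]
    rfl
  · have h1 : (Submodule.Quotient.mk (a • y) : N ⧸ (maximalIdeal A • ⊤ : Submodule A N)) =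
        (Ideal.Quotient.mk (maximalIdeal A) a) • Submodule.Quotient.mk y := rfl
    change φ (Submodule.Quotient.mk (a • y)) = _
    rw [h1, map_smul]
    rfl
  · change φ (Submodule.Quotient.mk y) = _
    rw [(Submodule.Quotient.mk_eq_zero _).2 hy, map_zero]
    rfl

theorem exists_fun (i : ℕ) {x : A} (hx : x ∈ maximalIdeal A ^ i)
    (hx' : x ∉ maximalIdeal A ^ (i + 1)) : ∃ θ, Fun i θ ∧ θ x ≠ 0 := by
  classical
  have hkill : ∀ y : ↥(maximalIdeal A ^ i),
      y ∈ (maximalIdeal A • ⊤ : Submodule A ↥(maximalIdeal A ^ i)) →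
      (y : A) ∈ maximalIdeal A ^ (i + 1) := by
    intro y hy
    refine Submodule.smul_induction_on hy (fun a ha w _ => ?_) fun w w' hw hw' => ?_
    · rw [pow_succ']
      exact Ideal.mul_mem_mul ha w.2
    · exact Ideal.add_mem _ hw hw'
  have hkill2 : ∀ y : ↥(maximalIdeal A ^ i), (y : A) ∈ maximalIdeal A ^ (i + 1) →
      y ∈ (maximalIdeal A • ⊤ : Submodule A ↥(maximalIdeal A ^ i)) := by
    intro y hy
    rw [pow_succ'] at hy
    have h1 : ∀ w ∈ maximalIdeal A * maximalIdeal A ^ i, ∃ hw : w ∈ maximalIdeal A ^ i,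
        (⟨w, hw⟩ : ↥(maximalIdeal A ^ i)) ∈
          (maximalIdeal A • ⊤ : Submodule A ↥(maximalIdeal A ^ i)) := by
      intro w hw
      refine Submodule.mul_induction_on hw (fun a ha b hb => ?_) fun b b' hb hb' => ?_
      · exact ⟨Ideal.mul_mem_left _ a hb,
          Submodule.smul_mem_smul (n := (⟨b, hb⟩ : ↥(maximalIdeal A ^ i))) ha trivial⟩
      · obtain ⟨hb1, hb2⟩ := hb
        obtain ⟨hb1', hb2'⟩ := hb'
        exact ⟨Ideal.add_mem _ hb1 hb1', Submodule.add_mem _ hb2 hb2'⟩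
    obtain ⟨_, h2⟩ := h1 y hy
    exact h2
  obtain ⟨φ, h0, hadd, hmul, hzero⟩ := exists_dual (A := A)
    (x := (⟨x, hx⟩ : ↥(maximalIdeal A ^ i))) fun h => hx' (hkill _ h)
  let θ : A → ResidueField A := fun y =>
    if h : y ∈ maximalIdeal A ^ i then φ ⟨y, h⟩ else 0
  have hθ : ∀ y (h : y ∈ maximalIdeal A ^ i), θ y = φ ⟨y, h⟩ := fun y h => dif_pos h
  refine ⟨θ, ⟨?_, ?_, ?_⟩, by rw [hθ x hx]; exact h0⟩
  · intro y hy w hw
    rw [hθ _ (Ideal.add_mem _ hy hw), hθ y hy, hθ w hw, ← hadd]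
    rfl
  · intro a y hy
    rw [hθ _ (Ideal.mul_mem_left _ a hy), hθ y hy, ← hmul]
    rfl
  · intro y hy
    have hy' : y ∈ maximalIdeal A ^ i := Ideal.pow_le_pow_right (Nat.le_succ i) hy
    rw [hθ y hy']
    exact hzero _ (hkill2 ⟨y, hy'⟩ hy)

variable {i : ℕ} {θ : A → ResidueField A}

theorem Fun.map_zero (h : Fun i θ) : θ 0 = 0 := h.zero 0 (Ideal.zero_mem _)

theorem Fun.sum (h : Fun i θ) {ι : Type} (s : Finset ι) (x : ι → A)
    (hx : ∀ j ∈ s, x j ∈ maximalIdeal A ^ i) : θ (∑ j ∈ s, x j) = ∑ j ∈ s, θ (x j) := by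
  classical
  induction s using Finset.induction_on with
  | empty => simpa using h.map_zero
  | insert a s ha ih =>
    rw [Finset.sum_insert ha, Finset.sum_insert ha, h.add _ (hx a (Finset.mem_insert_self _ _)) _
      (Ideal.sum_mem _ fun j hj => hx j (Finset.mem_insert_of_mem hj)),
      ih fun j hj => hx j (Finset.mem_insert_of_mem hj)]

/-- The reduction of matrices. -/
noncomputable def red (n : ℕ) : Matrix (Fin n) (Fin n) A →+* Matrix (Fin n) (Fin n) (ResidueField A) :=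
  (residue A).mapMatrix

theorem Fun.map_mul_left (h : Fun i θ) (P : Matrix (Fin n) (Fin n) A)
    {z : Matrix (Fin n) (Fin n) A} (hz : Ent (maximalIdeal A ^ i) z) :
    (P * z).map θ = red n P * z.map θ := by
  ext r s
  rw [Matrix.map_apply, Matrix.mul_apply, Matrix.mul_apply,
    h.sum _ _ fun j _ => Ideal.mul_mem_left _ _ (hz j s)]
  refine Finset.sum_congr rfl fun j _ => ?_
  rw [h.mul _ _ (hz j s)]
  rfl

theorem Fun.map_mul_right (h : Fun i θ) (P : Matrix (Fin n) (Fin n) A)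
    {z : Matrix (Fin n) (Fin n) A} (hz : Ent (maximalIdeal A ^ i) z) :
    (z * P).map θ = z.map θ * red n P := by
  ext r s
  rw [Matrix.map_apply, Matrix.mul_apply, Matrix.mul_apply,
    h.sum _ _ fun j _ => Ideal.mul_mem_right _ _ (hz r j)]
  refine Finset.sum_congr rfl fun j _ => ?_
  rw [mul_comm, h.mul _ _ (hz r j), mul_comm]
  rfl

theorem Fun.map_add (h : Fun i θ) {z w : Matrix (Fin n) (Fin n) A}
    (hz : Ent (maximalIdeal A ^ i) z) (hw : Ent (maximalIdeal A ^ i) w) :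
    (z + w).map θ = z.map θ + w.map θ := by
  ext r s
  exact h.add _ (hz r s) _ (hw r s)

theorem Fun.map_smul (h : Fun i θ) (a : A) {z : Matrix (Fin n) (Fin n) A}
    (hz : Ent (maximalIdeal A ^ i) z) : (a • z).map θ = residue A a • z.map θ := by
  ext r s
  exact h.mul _ _ (hz r s)

theorem Fun.map_eq_zero (h : Fun i θ) {z : Matrix (Fin n) (Fin n) A}
    (hz : Ent (maximalIdeal A ^ (i + 1)) z) : z.map θ = 0 := by
  ext r s
  exact h.zero _ (hz r s)

/-- Two normalizations differ by a scalar. -/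
theorem Fun.unique (h : Fun i θ) (hi : 1 ≤ i) (hn : 0 < n) {R : Matrix (Fin n) (Fin n) A} {b b' : A}
    (hb : IsUnit b) (h1 : Ent (maximalIdeal A ^ i) (b • R - 1))
    (h2 : Ent (maximalIdeal A ^ i) (b' • R - 1)) :
    ∃ s : ResidueField A, (b' • R - 1).map θ = (b • R - 1).map θ + s • 1 := by
  obtain ⟨u, rfl⟩ := hb
  set t : A := b' * ((u⁻¹ : Aˣ) : A) with ht
  have e1 : b' • R - 1 = t • ((u : A) • R - 1) + (t - 1) • (1 : Matrix (Fin n) (Fin n) A) := by
    have e0 : t * (u : A) = b' := by rw [ht, mul_assoc, Units.inv_mul, mul_one]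
    rw [smul_sub, smul_smul, e0, sub_smul, one_smul]
    abel
  have h3 : t - 1 ∈ maximalIdeal A ^ i := by
    have e2 := congrFun (congrFun e1 ⟨0, hn⟩) ⟨0, hn⟩
    have e3 : t - 1 = (b' • R - 1) ⟨0, hn⟩ ⟨0, hn⟩ - (t • ((u : A) • R - 1)) ⟨0, hn⟩ ⟨0, hn⟩ := by
      rw [e2]
      simp
    rw [e3]
    exact Ideal.sub_mem _ (h2 _ _) ((h1.smul t) _ _)
  have h4 : Ent (maximalIdeal A ^ i) ((t - 1) • (1 : Matrix (Fin n) (Fin n) A)) := by
    intro r s
    exact Ideal.mul_mem_right _ _ h3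
  have h5 : residue A t = 1 := by
    have h6 : t - 1 ∈ maximalIdeal A := by
      have := Ideal.pow_le_pow_right (I := maximalIdeal A) hi h3
      rwa [pow_one] at this
    have h7 := (residue_eq_zero_iff _).2 h6
    rw [map_sub, map_one] at h7
    exact sub_eq_zero.1 h7
  refine ⟨θ (t - 1), ?_⟩
  rw [e1, h.map_add (h1.smul t) h4, h.map_smul t h1, h5, one_smul]
  congr 1
  ext r s
  by_cases hrs : r = s
  · subst hrs
    simp
  · simp [hrs, h.map_zero]

end

end Pool.Agent.Y802.EV
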