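import Mathlib
import Pool.Agent.Y802.EV.Ent

/-!
# Trace zero matrices and the trace form
-/

set_option autoImplicit false
set_option linter.unusedSectionVars false

namespace Pool.Agent.Y802.EV

open Matrix

section

variable {k : Type} [Field k] {n : ℕ}

/-- Trace zero matrices. -/
abbrev Sl (k : Type) [Field k] (n : ℕ) : Submodule k (Matrix (Fin n) (Fin n) k) :=
  LinearMap.ker (Matrix.traceLinearMap (Fin n) k k)

theorem mem_Sl {X : Matrix (Fin n) (Fin n) k} : X ∈ Sl k n ↔ X.trace = 0 := Iff.rfl

theorem scalar_of_trace (W : Matrix (Fin n) (Fin n) k) (hn : 0 < n)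
    (h : ∀ X : Matrix (Fin n) (Fin n) k, X.trace = 0 → (X * W).trace = 0) :
    ∃ s : k, W = s • 1 := by
  classical
  have h1 : ∀ r s, r ≠ s → W r s = 0 := by
    intro r s hrs
    have h2 := h (Matrix.single s r 1) (Matrix.trace_single_eq_of_ne s r 1 hrs.symm)
    rw [Matrix.trace_single_mul, one_smul] at h2
    exact h2
  have h2 : ∀ r s, W r r = W s s := by
    intro r s
    have h3 := h (Matrix.single r r 1 - Matrix.single s s 1) (by
      rw [Matrix.trace_sub, Matrix.trace_single_eq_same, Matrix.trace_single_eq_same, sub_self])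
    rw [sub_mul, Matrix.trace_sub, Matrix.trace_single_mul, Matrix.trace_single_mul, one_smul,
      one_smul, sub_eq_zero] at h3
    exact h3
  refine ⟨W ⟨0, hn⟩ ⟨0, hn⟩, ?_⟩
  ext r s
  by_cases hrs : r = s
  · subst hrs
    simp [h2 r ⟨0, hn⟩]
  · simp [hrs, h1 r s hrs]

theorem zero_of_trace (hn : (n : k) ≠ 0) (W : Matrix (Fin n) (Fin n) k) (hW : W.trace = 0)
    (h : ∀ X : Matrix (Fin n) (Fin n) k, X.trace = 0 → (X * W).trace = 0) : W = 0 := by
  have hn0 : 0 < n := by
    rcases Nat.eq_zero_or_pos n with h0 | h0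
    · exact absurd (by rw [h0, Nat.cast_zero]) hn
    · exact h0
  obtain ⟨s, rfl⟩ := scalar_of_trace W hn0 h
  rw [Matrix.trace_smul, Matrix.trace_one, Fintype.card_fin, smul_eq_mul] at hW
  rw [(mul_eq_zero.1 hW).resolve_right hn, zero_smul]

variable {p : ℕ} [hp : Fact p.Prime]

/-- `l` is a nondegenerate functional. -/
def Nondeg (l : k →+ ZMod p) : Prop := ∀ y : k, (∀ x, l (x * y) = 0) → y = 0

theorem Nondeg.trace {l : k →+ ZMod p} (hl : Nondeg l) (W : Matrix (Fin n) (Fin n) k)
    (h : ∀ X : Matrix (Fin n) (Fin n) k, X.trace = 0 → l (X * W).trace = 0)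
    (X : Matrix (Fin n) (Fin n) k) (hX : X.trace = 0) : (X * W).trace = 0 := by
  apply hl
  intro x
  have h1 := h (x • X) (by rw [Matrix.trace_smul, hX, smul_zero])
  rwa [smul_mul_assoc, Matrix.trace_smul, smul_eq_mul] at h1

theorem exists_nondeg [CharP k p] : ∃ l : k →+ ZMod p, Nondeg l := by
  let _ : Algebra (ZMod p) k := ZMod.algebra k p
  obtain ⟨l, hl⟩ : ∃ l : k →+ ZMod p, l 1 ≠ 0 := by
    by_contra hcon
    push Not at hcon
    have : (1 : k) = 0 := (Module.forall_dual_apply_eq_zero_iff (ZMod p) (1 : k)).1 fun φ =>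
      hcon φ.toAddMonoidHom
    exact one_ne_zero this
  refine ⟨l, fun y hy => ?_⟩
  by_contra hy0
  apply hl
  have := hy y⁻¹
  rwa [inv_mul_cancel₀ hy0] at this

/-- Every functional on the trace zero matrices is given by the trace form. -/
theorem exists_rep [Finite k] [CharP k p] (hn : (n : k) ≠ 0) {l : k →+ ZMod p} (hl : Nondeg l)
    (θ : Sl k n →+ ZMod p) :
    ∃ Y : Matrix (Fin n) (Fin n) k, Y.trace = 0 ∧ ∀ X : Sl k n, θ X = l ((X : Matrix _ _ k) * Y).trace := by
  classical
  let _ : Algebra (ZMod p) k := ZMod.algebra k p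
  have hfin : Finite (Sl k n) := inferInstance
  let Ψ : Sl k n →+ (Sl k n →+ ZMod p) :=
    { toFun := fun Y =>
        { toFun := fun X => l ((X : Matrix (Fin n) (Fin n) k) * Y).trace
          map_zero' := by simp
          map_add' := fun X X' => by
            rw [Submodule.coe_add, add_mul, Matrix.trace_add, map_add] }
      map_zero' := by
        ext X
        simp
      map_add' := fun Y Y' => by
        ext X
        change l ((X : Matrix (Fin n) (Fin n) k) * (Y + Y' : Sl k n)).trace = _
        rw [Submodule.coe_add, mul_add, Matrix.trace_add, map_add]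
        rfl }
  have hinj : Function.Injective Ψ := by
    rw [injective_iff_map_eq_zero]
    intro Y hY
    apply Subtype.ext
    refine zero_of_trace hn _ (mem_Sl.1 Y.2) (hl.trace _ fun X hX => ?_)
    exact DFunLike.congr_fun hY ⟨X, hX⟩
  -- both sides have the same cardinality
  have hfin2 : Finite (Sl k n →+ ZMod p) := Finite.of_injective (fun f => (f : Sl k n → ZMod p))
    DFunLike.coe_injective
  have hcard : Nat.card (Sl k n →+ ZMod p) = Nat.card (Sl k n) := by
    let e : (Sl k n →+ ZMod p) ≃ Module.Dual (ZMod p) (Sl k n) :=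
      { toFun := fun f => f.toZModLinearMap p
        invFun := fun f => f.toAddMonoidHom
        left_inv := fun f => by ext x; rfl
        right_inv := fun f => by ext x; rfl }
    rw [Nat.card_congr e, Module.natCard_eq_pow_finrank (K := ZMod p),
      Module.natCard_eq_pow_finrank (K := ZMod p) (V := Sl k n), Subspace.dual_finrank_eq]
  have hsurj : Function.Surjective Ψ :=
    ((Nat.bijective_iff_injective_and_card Ψ).2 ⟨hinj, hcard.symm⟩).2
  obtain ⟨Y, hY⟩ := hsurj θ
  exact ⟨Y, mem_Sl.1 Y.2, fun X => by rw [← hY]; rfl⟩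

end

end Pool.Agent.Y802.EV
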