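import Mathlib
import Pool.Agent.Y802.EV.Sl

/-!
# Even representations with absolutely irreducible reduction
-/

set_option autoImplicit false
set_option linter.unusedSectionVars false

namespace Pool.Agent.Y802.EV

open NumberField IsDedekindDomain IntermediateField IsLocalRing Matrix

section

variable {F : Type} [Field F] [NumberField F] {K : IntermediateField F (AlgebraicClosure F)}
  [NumberField K] [IsGalois F K] {p : ℕ} [hp : Fact p.Prime]

theorem cycPow_conj (hK : ∀ z : AlgebraicClosure F, z ^ p = 1 → z ∈ K)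
    (c : Gal(AlgebraicClosure F/F))
    (hc : ∀ φ : AlgebraicClosure F →+* ℂ, ∀ x ∈ K, φ (c x) = (starRingEnd ℂ) (φ x)) :
    CycPow p c (p - 1) := by
  intro z hz
  have hz0 : z ≠ 0 := by
    rintro rfl
    rw [zero_pow hp.out.ne_zero] at hz
    exact zero_ne_one hz
  have h1 : z * z ^ (p - 1) = 1 := by
    rw [← pow_succ', Nat.sub_add_cancel hp.out.one_le, hz]
  let φ : AlgebraicClosure F →+* ℂ := Classical.choice (exists_complex F)
  apply φ.injective
  rw [hc φ z (hK z hz)]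
  have h2 : ‖φ z‖ = 1 := by
    apply Complex.norm_eq_one_of_pow_eq_one (n := p) _ hp.out.ne_zero
    rw [← map_pow, hz, map_one]
  have h3 : (starRingEnd ℂ) (φ z) * φ z = 1 := by
    rw [mul_comm, Complex.mul_conj, Complex.normSq_eq_norm_sq, h2]
    simp
  have h4 : φ (z ^ (p - 1)) * φ z = 1 := by
    rw [← map_mul, mul_comm, h1, map_one]
  have h5 : φ z ≠ 0 := by simpa using hz0
  exact mul_right_cancel₀ h5 (h3.trans h4.symm)

/-- The trace zero matrices, twisted by `ω`, do not map to the class group. -/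
def NoAd (K : IntermediateField F (AlgebraicClosure F)) [NumberField K] [IsGalois F K] (p : ℕ)
    {k : Type} [Field k] {n : ℕ} (R : Gal(AlgebraicClosure F/F) →* Matrix (Fin n) (Fin n) k) :
    Prop :=
  ∀ I : Matrix (Fin n) (Fin n) k → Ideal (𝓞 K), (∀ X, X.trace = 0 → I X ≠ ⊥) →
    (∀ X Y, X.trace = 0 → Y.trace = 0 → SameClass (I (X + Y)) (I X * I Y)) →
    (∀ σ b, CycPow p σ b → ∀ X, X.trace = 0 →
      SameClass (I ((b : k) • (R σ * X * R σ⁻¹))) (auI K σ (I X))) →
    ∀ X, X.trace = 0 → (I X).IsPrincipal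

theorem noAd_of_prime (hh : ¬ p ∣ classNumber K) (k : Type) [Field k] [CharP k p] {n : ℕ}
    (R : Gal(AlgebraicClosure F/F) →* Matrix (Fin n) (Fin n) k) : NoAd K p R := by
  intro I h0 hadd _ X hX
  refine principal_of_prime p hh (Sl k n) (fun y => ?_) (fun Y => I Y) (fun Y => h0 Y Y.2)
    (fun Y Y' => hadd Y Y' Y.2 Y'.2) ⟨X, hX⟩
  have h1 : ((p : ℕ) : k) • y = 0 := by rw [CharP.cast_eq_zero, zero_smul]
  rwa [Nat.cast_smul_eq_nsmul] at h1

/-- The reflection theorem for cocycles into matrices modulo scalars. -/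
theorem comm_of_cocycle (hp2 : p ≠ 2) (hK : ∀ z : AlgebraicClosure F, z ^ p = 1 → z ∈ K)
    (c : Gal(AlgebraicClosure F/F))
    (hc : ∀ φ : AlgebraicClosure F →+* ℂ, ∀ x ∈ K, φ (c x) = (starRingEnd ℂ) (φ x))
    (k : Type) [Field k] [Finite k] [CharP k p] {n : ℕ} (hn : (n : k) ≠ 0)
    (R : Gal(AlgebraicClosure F/F) →* Matrix (Fin n) (Fin n) k)
    (hRc : ∃ s : k, R c = s • 1) (hcls : NoAd K p R)
    (Y : K.fixingSubgroup → Matrix (Fin n) (Fin n) k)
    (hY1 : ∀ h h', ∃ s : k, Y (h * h') = Y h + Y h' + s • 1)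
    (hY2 : ∀ (σ : Gal(AlgebraicClosure F/F)) (h : K.fixingSubgroup), ∃ s : k,
      Y (MulAut.conjNormal σ h) = R σ * Y h * R σ⁻¹ + s • 1)
    (hopen : ∃ U : Subgroup K.fixingSubgroup, IsOpen (U : Set K.fixingSubgroup) ∧
      ∀ h ∈ U, ∃ s : k, Y h = s • 1)
    (hloc : ∀ Q : Ideal (𝓞 (AlgebraicClosure F)), Q.IsMaximal →
      (∀ τ : K.fixingSubgroup, (∀ x : 𝓞 (AlgebraicClosure F),
        (τ : Gal(AlgebraicClosure F/F)) • x - x ∈ Q) → ∃ s : k, Y τ = s • 1) ∨
      ∀ Z : Matrix (Fin n) (Fin n) k, Z.trace = 0 →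
        (∀ σ b, Dec Q σ → CycPow p σ b → R σ * Z = (b : k) • (Z * R σ)) → Z = 0)
    (σ : Gal(AlgebraicClosure F/F)) (h : K.fixingSubgroup) : R σ * Y h = Y h * R σ := by
  classical
  have hn0 : 0 < n := by
    rcases Nat.eq_zero_or_pos n with h0 | h0
    · exact absurd (by rw [h0, Nat.cast_zero]) hn
    · exact h0
  obtain ⟨l, hl⟩ := exists_nondeg (k := k) (p := p)
  have hlb : ∀ (b : ℕ) (y : k), l (b * y) = b * l y := by
    intro b y
    rw [← nsmul_eq_mul, map_nsmul, nsmul_eq_mul]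
  choose cy hcy using fun σ : Gal(AlgebraicClosure F/F) => exists_cycPow (p := p) σ
  have hRinv : ∀ σ, R σ * R σ⁻¹ = 1 := fun σ => by rw [← map_mul, mul_inv_cancel, map_one]
  have hRinv' : ∀ σ, R σ⁻¹ * R σ = 1 := fun σ => by rw [← map_mul, inv_mul_cancel, map_one]
  have htr0 : ∀ (b : k) (σ : Gal(AlgebraicClosure F/F)) (X : Matrix (Fin n) (Fin n) k),
      X.trace = 0 → (b • (R σ * X * R σ⁻¹)).trace = 0 := by
    intro b σ X hX
    rw [Matrix.trace_smul, Matrix.trace_mul_comm, ← mul_assoc, hRinv', one_mul, hX, smul_zero]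
  let act : Gal(AlgebraicClosure F/F) → Sl k n → Sl k n := fun σ X =>
    ⟨(cy σ : k) • (R σ * X * R σ⁻¹), htr0 _ σ X X.2⟩
  have hsc : ∀ (X : Sl k n) (s : k), ((X : Matrix (Fin n) (Fin n) k) *
      (s • (1 : Matrix (Fin n) (Fin n) k))).trace = 0 := by
    intro X s
    rw [mul_smul_comm, mul_one, Matrix.trace_smul, mem_Sl.1 X.2, smul_zero]
  have hadd' : ∀ (X : Sl k n) h h', ((X : Matrix (Fin n) (Fin n) k) * Y (h * h')).trace =
      ((X : Matrix (Fin n) (Fin n) k) * Y h).trace + ((X : Matrix (Fin n) (Fin n) k) * Y h').trace := by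
    intro X h h'
    obtain ⟨s, hs⟩ := hY1 h h'
    rw [hs, mul_add, mul_add, Matrix.trace_add, Matrix.trace_add, hsc, add_zero]
  let f : Sl k n → (K.fixingSubgroup →* Multiplicative (ZMod p)) := fun X =>
    { toFun := fun h => Multiplicative.ofAdd (l ((X : Matrix (Fin n) (Fin n) k) * Y h).trace)
      map_one' := by
        have h1 := hadd' X 1 1
        rw [mul_one] at h1
        have h2 : ((X : Matrix (Fin n) (Fin n) k) * Y 1).trace = 0 := by linear_combination -h1
        rw [h2, map_zero]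
        rfl
      map_mul' := fun a b => by
        rw [hadd', map_add]
        rfl }
  have hf : ∀ X h, Multiplicative.toAdd (f X h) = l ((X : Matrix (Fin n) (Fin n) k) * Y h).trace :=
    fun X h => rfl
  have hact : ∀ σ b, CycPow p σ b → ∀ X : Sl k n, ((act σ X : Sl k n) : Matrix (Fin n) (Fin n) k) =
      (b : k) • (R σ * X * R σ⁻¹) := by
    intro σ b hb X
    change (cy σ : k) • (R σ * X * R σ⁻¹) = _
    rw [(hcy σ).cast_eq (k := k) hb]
  have key := reflection hp2 hK (Sl k n) act f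
    (fun X X' => by
      ext h
      change l (((X + X' : Sl k n) : Matrix (Fin n) (Fin n) k) * Y h).trace =
        l ((X : Matrix (Fin n) (Fin n) k) * Y h).trace +
          l ((X' : Matrix (Fin n) (Fin n) k) * Y h).trace
      rw [Submodule.coe_add, add_mul, Matrix.trace_add, map_add])
    (fun X => by
      obtain ⟨U, hU, hU1⟩ := hopen
      refine Subgroup.isOpen_mono (H₁ := U) (fun h hh => ?_) hU
      rw [MonoidHom.mem_ker]
      change l ((X : Matrix (Fin n) (Fin n) k) * Y h).trace = 0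
      obtain ⟨s, hs⟩ := hU1 h hh
      rw [hs, hsc, map_zero])
    (fun σ b hb X => by
      ext h
      change l (((act σ X : Sl k n) : Matrix (Fin n) (Fin n) k) * Y h).trace =
        Multiplicative.toAdd ((f X (MulAut.conjNormal σ⁻¹ h)) ^ b)
      obtain ⟨s, hs⟩ := hY2 σ⁻¹ h
      rw [toAdd_pow, hf, nsmul_eq_mul, hact σ b hb, ← hlb, hs, mul_add, Matrix.trace_add, hsc,
        add_zero, inv_inv, smul_mul_assoc, Matrix.trace_smul, smul_eq_mul]
      congr 2
      rw [mul_assoc, mul_assoc, Matrix.trace_mul_comm, mul_assoc, mul_assoc])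
    (fun v => by
      obtain ⟨Q, hQ, hQv⟩ := exists_over (K := K) v
      rcases hloc Q hQ with h1 | h1
      · refine Or.inl ⟨Q, hQ, hQv, fun τ hτ X => ?_⟩
        change l ((X : Matrix (Fin n) (Fin n) k) * Y τ).trace = 0
        obtain ⟨s, hs⟩ := h1 τ hτ
        rw [hs, hsc, map_zero]
      · right
        intro θ hθ
        obtain ⟨Z, hZ0, hZ⟩ := exists_rep hn hl θ
        have h2 : Z = 0 := by
          refine h1 Z hZ0 fun σ b hσ hb => ?_
          have h3 : (b : k) • (R σ⁻¹ * Z * R σ) - Z = 0 := by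
            refine zero_of_trace hn _ ?_ (hl.trace _ fun X hX => ?_)
            · rw [Matrix.trace_sub, hZ0, sub_zero]
              have := htr0 (b : k) σ⁻¹ Z hZ0
              rwa [inv_inv] at this
            · have h4 := hθ σ (hσ.fixes hQv) ⟨X, hX⟩
              rw [hZ, hZ, hact σ b hb] at h4
              rw [mul_sub, Matrix.trace_sub, map_sub, sub_eq_zero, ← h4, smul_mul_assoc,
                mul_smul_comm, Matrix.trace_smul, Matrix.trace_smul]
              congr 2
              change _ = (R σ * X * R σ⁻¹ * Z).trace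
              rw [mul_assoc (R σ * X), mul_assoc (R σ), Matrix.trace_mul_comm (R σ)]
              simp only [mul_assoc]
          have h4 := congrArg (fun W => R σ * W) (sub_eq_zero.1 h3)
          simp only [mul_smul_comm] at h4
          rw [← mul_assoc, ← mul_assoc, hRinv, one_mul] at h4
          exact h4.symm
        ext X
        rw [hZ, h2, mul_zero, Matrix.trace_zero, map_zero]
        rfl)
    (fun I h1 h2 h3 X => by
      let I' : Matrix (Fin n) (Fin n) k → Ideal (𝓞 K) := fun X =>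
        if hX : X ∈ Sl k n then I ⟨X, hX⟩ else ⊤
      have hI' : ∀ (X : Matrix (Fin n) (Fin n) k) (hX : X ∈ Sl k n), I' X = I ⟨X, hX⟩ :=
        fun X hX => dif_pos hX
      have h4 := hcls I' (fun X hX => by rw [hI' X hX]; exact h1 _)
        (fun X X' hX hX' => by
          have hXX : (X + X').trace = 0 := by rw [Matrix.trace_add, hX, hX', add_zero]
          rw [hI' X hX, hI' X' hX', hI' _ hXX]
          exact h2 ⟨X, hX⟩ ⟨X', hX'⟩)
        (fun σ b hb X hX => by
          rw [hI' X hX, hI' _ (htr0 _ σ X hX)]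
          have h5 := h3 σ ⟨X, hX⟩
          have h6 : act σ ⟨X, hX⟩ = ⟨(b : k) • (R σ * X * R σ⁻¹), htr0 _ σ X hX⟩ :=
            Subtype.ext (hact σ b hb ⟨X, hX⟩)
          rwa [h6] at h5)
        X X.2
      rwa [hI' X X.2] at h4)
    c hc (fun X => by
      apply Subtype.ext
      obtain ⟨s, hs⟩ := hRc
      have h1 := hRinv c
      have h2 : R c * (X : Matrix (Fin n) (Fin n) k) = X * R c := by
        rw [hs, smul_mul_assoc, one_mul, mul_smul_comm, mul_one]
      rw [hact c _ (cycPow_conj hK c hc), h2, mul_assoc, h1, mul_one,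
        Nat.cast_sub hp.out.one_le, CharP.cast_eq_zero, Nat.cast_one, zero_sub, neg_smul, one_smul]
      rfl)
    σ (cy σ) (hcy σ)
  set b : ℕ := cy σ with hb
  have hb0 : (b : k) ≠ 0 := (hcy σ).cast_ne_zero
  have hW : ∀ X : Matrix (Fin n) (Fin n) k, X.trace = 0 →
      (X * (R σ⁻¹ * Y h * R σ - Y h)).trace = 0 := by
    refine hl.trace _ fun X hX => ?_
    have h1 : ((b : k)⁻¹ • X).trace = 0 := by rw [Matrix.trace_smul, hX, smul_zero]
    have h2 := congrArg Multiplicative.toAdd (DFunLike.congr_fun (key ⟨(b : k)⁻¹ • X, h1⟩) h)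
    rw [MonoidHom.pow_apply, toAdd_pow, hf, hf, nsmul_eq_mul, ← hlb, hact σ b (hcy σ)] at h2
    have h3 : ((b : k) • (R σ * ((b : k)⁻¹ • X) * R σ⁻¹) * Y h).trace =
        (X * (R σ⁻¹ * Y h * R σ)).trace := by
      rw [mul_smul_comm, smul_mul_assoc ((b : k)⁻¹), smul_smul, mul_inv_cancel₀ hb0, one_smul,
        mul_assoc (R σ * X), mul_assoc (R σ), Matrix.trace_mul_comm (R σ)]
      simp only [mul_assoc]
    have h4 : (b : k) * ((((b : k)⁻¹ • X : Matrix (Fin n) (Fin n) k)) * Y h).trace =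
        (X * Y h).trace := by
      rw [smul_mul_assoc, Matrix.trace_smul, smul_eq_mul, mul_inv_cancel_left₀ hb0]
    rw [mul_sub, Matrix.trace_sub, map_sub, sub_eq_zero, ← h3, ← h4]
    exact h2
  have h1 : R σ⁻¹ * Y h * R σ - Y h = 0 := by
    refine zero_of_trace hn _ ?_ hW
    rw [Matrix.trace_sub, Matrix.trace_mul_comm, ← mul_assoc, hRinv, one_mul, sub_self]
  have h2 := congrArg (fun W => R σ * W) (sub_eq_zero.1 h1)
  rw [← mul_assoc, ← mul_assoc, hRinv, one_mul] at h2
  exact h2.symm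

/-- The inductive step. -/
theorem step (hp2 : p ≠ 2) (hK : ∀ z : AlgebraicClosure F, z ^ p = 1 → z ∈ K)
    (c : Gal(AlgebraicClosure F/F))
    (hc : ∀ φ : AlgebraicClosure F →+* ℂ, ∀ x ∈ K, φ (c x) = (starRingEnd ℂ) (φ x))
    {A : Type} [CommRing A] [IsLocalRing A] [Finite (ResidueField A)] [CharP (ResidueField A) p]
    {n : ℕ} (hn : (n : ResidueField A) ≠ 0)
    (ρ : Gal(AlgebraicClosure F/F) →* Matrix (Fin n) (Fin n) A)
    (hRc : ∃ s : ResidueField A, red n (ρ c) = s • 1)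
    (hcls : NoAd K p (((red n : Matrix (Fin n) (Fin n) A →+* Matrix (Fin n) (Fin n) (ResidueField A)) :
      Matrix (Fin n) (Fin n) A →* Matrix (Fin n) (Fin n) (ResidueField A)).comp ρ))
    (hcent : ∀ Z : Matrix (Fin n) (Fin n) (ResidueField A),
      (∀ σ, red n (ρ σ) * Z = Z * red n (ρ σ)) → ∃ s : ResidueField A, Z = s • 1)
    (hloc : ∀ Q : Ideal (𝓞 (AlgebraicClosure F)), Q.IsMaximal →
      (∀ τ ∈ K.fixingSubgroup, (∀ x : 𝓞 (AlgebraicClosure F), τ • x - x ∈ Q) →
        ∃ s : A, ρ τ = s • 1) ∨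
      ∀ Z : Matrix (Fin n) (Fin n) (ResidueField A), Z.trace = 0 →
        (∀ σ b, Dec Q σ → CycPow p σ b →
          red n (ρ σ) * Z = (b : ResidueField A) • (Z * red n (ρ σ))) → Z = 0)
    (i : ℕ) (hi : 1 ≤ i)
    (hopen : ∃ U : Subgroup K.fixingSubgroup, IsOpen (U : Set K.fixingSubgroup) ∧
      ∀ h ∈ U, Ent (maximalIdeal A ^ (i + 1)) (ρ h - 1))
    (hP : ∀ h ∈ K.fixingSubgroup, ∃ a : A, Ent (maximalIdeal A ^ i) (ρ h - a • 1)) :
    ∀ h ∈ K.fixingSubgroup, ∃ a : A, Ent (maximalIdeal A ^ (i + 1)) (ρ h - a • 1) := by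
  classical
  have hn0 : 0 < n := by
    rcases Nat.eq_zero_or_pos n with h0 | h0
    · exact absurd (by rw [h0, Nat.cast_zero]) hn
    · exact h0
  have hii : maximalIdeal A ^ (i + 1) ≤ maximalIdeal A ^ i := Ideal.pow_le_pow_right (Nat.le_succ i)
  have hi1 : maximalIdeal A ^ i ≤ maximalIdeal A := by
    have := Ideal.pow_le_pow_right (I := maximalIdeal A) hi
    rwa [pow_one] at this
  have hinv : ∀ σ, ρ σ * ρ σ⁻¹ = 1 := fun σ => by rw [← map_mul, mul_inv_cancel, map_one]
  -- normalization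
  have hb : ∀ h : K.fixingSubgroup, ∃ b : A, IsUnit b ∧
      Ent (maximalIdeal A ^ i) (b • ρ h - 1) := by
    intro h
    obtain ⟨a, ha⟩ := hP h h.2
    have hu : IsUnit a := by
      by_contra hcon
      have h1 : a ∈ maximalIdeal A := (mem_maximalIdeal a).2 hcon
      have h2 : Ent (maximalIdeal A) (ρ h) := by
        have h3 : ρ h = (ρ h - a • 1) + a • 1 := by rw [sub_add_cancel]
        rw [h3]
        refine (ha.mono hi1).add fun r s => ?_
        exact Ideal.mul_mem_right _ _ h1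
      have h3 := (h2.mul_right (ρ (h : Gal(AlgebraicClosure F/F))⁻¹)) ⟨0, hn0⟩ ⟨0, hn0⟩
      rw [hinv, Matrix.one_apply_eq] at h3
      exact (maximalIdeal.isMaximal A).ne_top ((Ideal.eq_top_iff_one _).2 h3)
    obtain ⟨u, rfl⟩ := hu
    refine ⟨((u⁻¹ : Aˣ) : A), Units.isUnit _, ?_⟩
    have h1 : ((u⁻¹ : Aˣ) : A) • ρ h - 1 = ((u⁻¹ : Aˣ) : A) • (ρ h - (u : A) • 1) := by
      rw [smul_sub, smul_smul, Units.inv_mul, one_smul]
    rw [h1]
    exact ha.smul _
  choose b hbu hb using hb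
  -- the functionals
  have hfun : ∀ θ, Fun i θ → ∀ h : K.fixingSubgroup, ∃ s : ResidueField A,
      (b h • ρ h - 1).map θ = s • 1 := by
    intro θ hθ h
    apply hcent
    intro σ
    have hun : ∀ (g : K.fixingSubgroup) (b' : A), Ent (maximalIdeal A ^ i) (b' • ρ g - 1) →
        ∃ s : ResidueField A, (b g • ρ g - 1).map θ = (b' • ρ g - 1).map θ + s • 1 := by
      intro g b' hb'
      obtain ⟨s, hs⟩ := hθ.unique hi hn0 (hbu g) (hb g) hb'
      refine ⟨-s, ?_⟩
      rw [hs, neg_smul, add_neg_cancel_right]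
    refine comm_of_cocycle hp2 hK c hc (ResidueField A) hn
      (((red n : Matrix (Fin n) (Fin n) A →+* Matrix (Fin n) (Fin n) (ResidueField A)) :
      Matrix (Fin n) (Fin n) A →* Matrix (Fin n) (Fin n) (ResidueField A)).comp ρ) hRc hcls
      (fun h => (b h • ρ h - 1).map θ) ?_ ?_ ?_ ?_ σ h
    · intro g g'
      have e1 : (b g * b g') • ρ (g * g' : K.fixingSubgroup) - 1 =
          (b g • ρ g - 1) * (b g' • ρ g' - 1) + (b g • ρ g - 1) + (b g' • ρ g' - 1) := by
        rw [Subgroup.coe_mul, map_mul, sub_mul, mul_sub, smul_mul_assoc, mul_smul_comm, smul_smul,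
          one_mul, mul_one]
        abel
      have e2 : Ent (maximalIdeal A ^ (i + 1)) ((b g • ρ g - 1) * (b g' • ρ g' - 1)) := by
        refine ((hb g).mul (hb g')).mono ?_
        rw [← pow_add]
        exact Ideal.pow_le_pow_right (by omega)
      have e3 : Ent (maximalIdeal A ^ i)
          ((b g * b g') • ρ (g * g' : K.fixingSubgroup) - 1) := by
        rw [e1]
        exact ((e2.mono hii).add (hb g)).add (hb g')
      obtain ⟨s, hs⟩ := hun _ _ e3
      refine ⟨s, ?_⟩
      rw [hs, e1, hθ.map_add ((e2.mono hii).add (hb g)) (hb g'), hθ.map_add (e2.mono hii) (hb g),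
        hθ.map_eq_zero e2, zero_add]
    · intro σ g
      have e1 : b g • ρ (MulAut.conjNormal σ g : K.fixingSubgroup) - 1 =
          ρ σ * (b g • ρ g - 1) * ρ σ⁻¹ := by
        rw [MulAut.conjNormal_apply, map_mul, map_mul, mul_sub, sub_mul, mul_one, hinv,
          mul_smul_comm, smul_mul_assoc]
      have e2 : Ent (maximalIdeal A ^ i)
          (b g • ρ (MulAut.conjNormal σ g : K.fixingSubgroup) - 1) := by
        rw [e1]
        exact ((hb g).mul_left _).mul_right _
      obtain ⟨s, hs⟩ := hun _ _ e2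
      refine ⟨s, ?_⟩
      rw [hs, e1, hθ.map_mul_right _ ((hb g).mul_left _), hθ.map_mul_left _ (hb g)]
      rfl
    · obtain ⟨U, hU, hU1⟩ := hopen
      refine ⟨U, hU, fun g hg => ?_⟩
      have e1 : Ent (maximalIdeal A ^ (i + 1)) ((1 : A) • ρ g - 1) := by
        rw [one_smul]
        exact hU1 g hg
      obtain ⟨s, hs⟩ := hun g 1 (e1.mono hii)
      exact ⟨s, by rw [hs, hθ.map_eq_zero e1, zero_add]⟩
    · intro Q hQ
      rcases hloc Q hQ with h1 | h1
      · refine Or.inl fun τ hτ => ?_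
        obtain ⟨s, hs⟩ := h1 τ τ.2 hτ
        refine ⟨θ (b τ * s - 1), ?_⟩
        have e1 : b τ • ρ τ - 1 = (b τ * s - 1) • (1 : Matrix (Fin n) (Fin n) A) := by
          rw [hs, smul_smul, sub_smul, one_smul]
        rw [e1]
        ext r s
        by_cases hrs : r = s
        · subst hrs
          simp
        · simp [hrs, hθ.map_zero]
      · exact Or.inr h1
  -- conclusion
  intro h hh
  set Z : Matrix (Fin n) (Fin n) A := b ⟨h, hh⟩ • ρ h - 1 with hZ
  have hZe : Ent (maximalIdeal A ^ i) Z := hb ⟨h, hh⟩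
  set z0 : A := Z ⟨0, hn0⟩ ⟨0, hn0⟩ with hz0
  have hW : Ent (maximalIdeal A ^ (i + 1)) (Z - z0 • 1) := by
    intro r s
    by_contra hcon
    have hsm : Ent (maximalIdeal A ^ i) ((-z0) • (1 : Matrix (Fin n) (Fin n) A)) := by
      intro r s
      exact Ideal.mul_mem_right _ _ (neg_mem (hZe _ _))
    have hWe : Ent (maximalIdeal A ^ i) (Z - z0 • 1) := by
      have e1 : Z - z0 • 1 = Z + (-z0) • (1 : Matrix (Fin n) (Fin n) A) := by
        rw [neg_smul, sub_eq_add_neg]
      rw [e1]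
      exact hZe.add hsm
    obtain ⟨θ, hθ, hne⟩ := exists_fun i (hWe r s) hcon
    apply hne
    obtain ⟨t, ht⟩ := hfun θ hθ ⟨h, hh⟩
    have e2 : ∀ r s, θ (Z r s) = (t • (1 : Matrix (Fin n) (Fin n) (ResidueField A))) r s :=
      fun r s => congrFun (congrFun ht r) s
    have e3 : θ z0 = t := by
      rw [hz0, e2]
      simp
    by_cases hrs : r = s
    · subst hrs
      have e4 : (Z - z0 • 1) r r = Z r r + (-1) * z0 := by
        simp
        ring
      rw [e4, hθ.add _ (hZe r r) _ (Ideal.mul_mem_left _ _ (hZe _ _)), hθ.mul _ _ (hZe _ _), e2, e3,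
        map_neg, map_one]
      simp
    · have e4 : (Z - z0 • 1) r s = Z r s := by
        simp [hrs]
      rw [e4, e2]
      simp [hrs]
  obtain ⟨u, hu⟩ := hbu ⟨h, hh⟩
  refine ⟨((u⁻¹ : Aˣ) : A) * (1 + z0), ?_⟩
  have e1 : ρ h - (((u⁻¹ : Aˣ) : A) * (1 + z0)) • 1 = ((u⁻¹ : Aˣ) : A) • (Z - z0 • 1) := by
    rw [hZ, ← hu, smul_sub, smul_sub, smul_smul, smul_smul, Units.inv_mul, one_smul, mul_add,
      mul_one, add_smul]
    abel
  rw [e1]
  exact hW.smul _

/-- The theorem for representations with irreducible reduction. -/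
theorem scalar_of_even (hp2 : p ≠ 2) (hK : ∀ z : AlgebraicClosure F, z ^ p = 1 → z ∈ K)
    (c : Gal(AlgebraicClosure F/F))
    (hc : ∀ φ : AlgebraicClosure F →+* ℂ, ∀ x ∈ K, φ (c x) = (starRingEnd ℂ) (φ x))
    {A : Type} [CommRing A] [IsLocalRing A] [IsNoetherianRing A] [Finite (ResidueField A)]
    [CharP (ResidueField A) p]
    {n : ℕ} (hn : (n : ResidueField A) ≠ 0)
    (ρ : Gal(AlgebraicClosure F/F) →* Matrix (Fin n) (Fin n) A)
    (hRc : ∃ s : ResidueField A, red n (ρ c) = s • 1)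
    (hcls : NoAd K p (((red n : Matrix (Fin n) (Fin n) A →+* Matrix (Fin n) (Fin n) (ResidueField A)) :
      Matrix (Fin n) (Fin n) A →* Matrix (Fin n) (Fin n) (ResidueField A)).comp ρ))
    (hcent : ∀ Z : Matrix (Fin n) (Fin n) (ResidueField A),
      (∀ σ, red n (ρ σ) * Z = Z * red n (ρ σ)) → ∃ s : ResidueField A, Z = s • 1)
    (hloc : ∀ Q : Ideal (𝓞 (AlgebraicClosure F)), Q.IsMaximal →
      (∀ τ ∈ K.fixingSubgroup, (∀ x : 𝓞 (AlgebraicClosure F), τ • x - x ∈ Q) →
        ∃ s : A, ρ τ = s • 1) ∨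
      ∀ Z : Matrix (Fin n) (Fin n) (ResidueField A), Z.trace = 0 →
        (∀ σ b, Dec Q σ → CycPow p σ b →
          red n (ρ σ) * Z = (b : ResidueField A) • (Z * red n (ρ σ))) → Z = 0)
    (hopen : ∀ i, ∃ U : Subgroup K.fixingSubgroup, IsOpen (U : Set K.fixingSubgroup) ∧
      ∀ h ∈ U, Ent (maximalIdeal A ^ i) (ρ h - 1))
    (hsc : ∀ h ∈ K.fixingSubgroup, ∃ s : ResidueField A, red n (ρ h) = s • 1) :
    ∀ h ∈ K.fixingSubgroup, ∃ a : A, ρ h = a • 1 := by
  have hn0 : 0 < n := by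
    rcases Nat.eq_zero_or_pos n with h0 | h0
    · exact absurd (by rw [h0, Nat.cast_zero]) hn
    · exact h0
  have hall : ∀ i, 1 ≤ i → ∀ h ∈ K.fixingSubgroup,
      ∃ a : A, Ent (maximalIdeal A ^ i) (ρ h - a • 1) := by
    intro i hi
    induction i, hi using Nat.le_induction with
    | base =>
      intro h hh
      obtain ⟨s, hs⟩ := hsc h hh
      obtain ⟨a, rfl⟩ := residue_surjective s
      refine ⟨a, fun r t => ?_⟩
      rw [pow_one, ← residue_eq_zero_iff]
      have e1 := congrFun (congrFun hs r) t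
      change residue A (ρ h r t) = _ at e1
      rw [Matrix.sub_apply, map_sub, e1]
      by_cases hrs : r = t
      · subst hrs
        simp
      · simp [hrs]
    | succ i hi ih => exact step hp2 hK c hc hn ρ hRc hcls hcent hloc i hi (hopen (i + 1)) ih
  intro h hh
  refine ⟨ρ h ⟨0, hn0⟩ ⟨0, hn0⟩, ?_⟩
  have hz : ∀ x : A, (∀ i, 1 ≤ i → x ∈ maximalIdeal A ^ i) → x = 0 := by
    intro x hx
    have h1 := Ideal.iInf_pow_eq_bot_of_isLocalRing (maximalIdeal A)
      (maximalIdeal.isMaximal A).ne_top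
    have h2 : x ∈ ⨅ i : ℕ, maximalIdeal A ^ i := by
      rw [Ideal.mem_iInf]
      intro i
      rcases Nat.eq_zero_or_pos i with h0 | h0
      · rw [h0, pow_zero, Ideal.one_eq_top]
        trivial
      · exact hx i h0
    rw [h1] at h2
    exact h2
  ext r s
  by_cases hrs : r = s
  · subst hrs
    rw [Matrix.smul_apply, Matrix.one_apply_eq, smul_eq_mul, mul_one, ← sub_eq_zero]
    refine hz _ fun i hi => ?_
    obtain ⟨a, ha⟩ := hall i hi h hh
    have e1 := Ideal.sub_mem _ (ha r r) (ha ⟨0, hn0⟩ ⟨0, hn0⟩)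
    simpa using e1
  · rw [Matrix.smul_apply, Matrix.one_apply_ne hrs, smul_zero]
    refine hz _ fun i hi => ?_
    obtain ⟨a, ha⟩ := hall i hi h hh
    have e1 := ha r s
    rwa [Matrix.sub_apply, Matrix.smul_apply, Matrix.one_apply_ne hrs, smul_zero, sub_zero] at e1

end

end Pool.Agent.Y802.EV
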